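import Pool.Agent.Helper47.KP.Op

/-!
Kissing numbers, sphere case of the improved linear programming bound: definitions.
See /team-store/h84_KL_sphere.md.
-/

set_option autoImplicit false

open MeasureTheory Set Metric Polynomial
open scoped RealInnerProductSpace

namespace Pool.Agent.Helper84.KLS

open Pool.Agent.Helper47.KP

/-- `kap_j = D_j P_j`, where `D_j = 1 / nrm d j` is the dimension of the harmonics of degree `j` -/
noncomputable def kap (d j : ℕ) : ℝ[X] := C (nrm d j)⁻¹ * PP d j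

/-- coefficient of the step up, arrival level `k` -/
noncomputable def au (d e k : ℕ) : ℝ := ((k : ℝ) - e) / (2 * k + d - 2)

/-- coefficient of the step down, arrival level `k` -/
noncomputable def ad (d e k : ℕ) : ℝ := ((k : ℝ) + d - 2 + e) / (2 * k + d - 2)

/-- `au(e)^2 / au(0)` -/
noncomputable def up (d e k : ℕ) : ℝ := ((k : ℝ) - e) ^ 2 / (k * (2 * k + d - 2))

/-- `ad(e)^2 / ad(0)` -/
noncomputable def dn (d e k : ℕ) : ℝ := ((k : ℝ) + d - 2 + e) ^ 2 / ((k + d - 2) * (2 * k + d - 2))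

/-- `e`-th derivative of `kap_k` -/
noncomputable def dk (d e k : ℕ) : ℝ[X] := derivative^[e] (kap d k)

/-- basis vector -/
noncomputable def bv {d : ℕ} (l : Fin d) : EE d := EuclideanSpace.single l 1

/-- `psi` for the orthonormal basis `U (bv l)`; the first vector is the point `x` of the code -/
noncomputable def psi {d : ℕ} [NeZero d] (e k : ℕ) (U : EE d ≃ₗᵢ[ℝ] EE d) (Q : Finset (Fin d))
    (a : Sph d) : ℝ :=
  (dk d e k).eval ⟪U (bv 0), (a : EE d)⟫ * ∏ l ∈ Q, ⟪U (bv l), (a : EE d)⟫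

/-- the sets of `e` indices different from `0` -/
noncomputable def QQ (d : ℕ) [NeZero d] (e : ℕ) : Finset (Finset (Fin d)) :=
  (Finset.univ.erase (0 : Fin d)).powersetCard e

/-- an isometry which maps `bv 0` to `x` -/
noncomputable def UU {d : ℕ} [NeZero d] (x : Sph d) : EE d ≃ₗᵢ[ℝ] EE d :=
  (ℝ ∙ ((bv 0 : EE d) - x))ᗮ.reflection

/-- the functions `psi` of the code -/
noncomputable def psiC {d : ℕ} [NeZero d] (e : ℕ) (α : Sph d × Finset (Fin d)) (k : ℕ) (a : Sph d) : ℝ :=
  psi e k (UU α.1) α.2 a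

/-- Gram matrix of level `k` -/
noncomputable def NN {d : ℕ} {ι : Type} (ψ : ι → ℕ → Sph d → ℝ) (k : ℕ) (α β : ι) : ℝ :=
  ∫ a : Sph d, ψ α k a * ψ β k a ∂(sig d)

/-- the abstract properties of the functions `psi` which are used in the main inequality -/
structure Sys (d e : ℕ) {ι : Type} (x : ι → Sph d) (ψ : ι → ℕ → Sph d → ℝ) : Prop where
  cont : ∀ α k, Continuous (ψ α k)
  repro : ∀ α k i (a : Sph d), ∫ b : Sph d, (kap d i).eval ⟪(a : EE d), (b : EE d)⟫ * ψ α k b ∂(sig d) =
    if i = k then ψ α k a else 0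
  step : ∀ α j (a : Sph d), ⟪(x α : EE d), (a : EE d)⟫ * ψ α (j + 1) a =
    au d e (j + 2) * ψ α (j + 2) a + ad d e j * ψ α j a

end Pool.Agent.Helper84.KLS
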