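import Pool.Agent.Helper84.KLS.Defs

/-!
Block K1: three term recurrence and derivative identity for `kap_j = D_j P_j`.
Use `PP_succ`, `PP_AB`, `PP_rec`, `PP_rec_deriv` (Helper47.KP.Geg), `zon_norm_rec` + `zon_eq_nrm`
(for `nrm d (j+1)` in terms of `nrm d j`).
-/

set_option autoImplicit false

open MeasureTheory Set Metric Polynomial
open scoped RealInnerProductSpace

namespace Pool.Agent.Helper84.KLS

open Pool.Agent.Helper47.KP

private lemma nrm_step {d : ℕ} [NeZero d] (hd : 3 ≤ d) (j : ℕ) :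
    ((j : ℝ) + 1) * (2 * j + d - 2) * (nrm d (j + 1))⁻¹ =
      ((j : ℝ) + d - 2) * (2 * j + d) * (nrm d j)⁻¹ := by
  obtain ⟨x⟩ : Nonempty (Sph d) := by
    refine ⟨⟨EuclideanSpace.single 0 1, ?_⟩⟩
    simp
  have h := zon_norm_rec hd x j
  rw [zon_eq_nrm hd x, zon_eq_nrm hd x] at h
  have h0 := (nrm_pos hd (d := d) j).ne'
  have h1 := (nrm_pos hd (d := d) (j + 1)).ne'
  field_simp
  linarith

private lemma coef_up {d : ℕ} [NeZero d] (hd : 3 ≤ d) (j : ℕ) :
    ((j : ℝ) + 2) / (2 * j + d + 2) * (nrm d (j + 2))⁻¹ =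
      ((j : ℝ) + d - 1) / (2 * j + d) * (nrm d (j + 1))⁻¹ := by
  have h := nrm_step hd (j + 1)
  have hd' : (3 : ℝ) ≤ d := by exact_mod_cast hd
  have hj : (0 : ℝ) ≤ j := Nat.cast_nonneg j
  have e1 : (2 * (j : ℝ) + d + 2) ≠ 0 := by
    have : 0 < 2 * (j : ℝ) + d + 2 := by linarith
    exact this.ne'
  have e2 : (2 * (j : ℝ) + d) ≠ 0 := by
    have : 0 < 2 * (j : ℝ) + d := by linarith
    exact this.ne'
  rw [show j + 1 + 1 = j + 2 by ring] at h
  push_cast at h
  set a := (nrm d (j + 2))⁻¹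
  set b := (nrm d (j + 1))⁻¹
  rw [div_mul_eq_mul_div, div_mul_eq_mul_div, div_eq_div_iff e1 e2]
  linear_combination h

private lemma coef_dn {d : ℕ} [NeZero d] (hd : 3 ≤ d) (j : ℕ) :
    ((j : ℝ) + d - 2) / (2 * j + d - 2) * (nrm d j)⁻¹ =
      ((j : ℝ) + 1) / (2 * j + d) * (nrm d (j + 1))⁻¹ := by
  have h := nrm_step hd j
  have hd' : (3 : ℝ) ≤ d := by exact_mod_cast hd
  have hj : (0 : ℝ) ≤ j := Nat.cast_nonneg j
  have e1 : (2 * (j : ℝ) + d - 2) ≠ 0 := by
    have : 0 < 2 * (j : ℝ) + d - 2 := by linarith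
    exact this.ne'
  have e2 : (2 * (j : ℝ) + d) ≠ 0 := by
    have : 0 < 2 * (j : ℝ) + d := by linarith
    exact this.ne'
  set a := (nrm d j)⁻¹
  set b := (nrm d (j + 1))⁻¹
  rw [div_mul_eq_mul_div, div_mul_eq_mul_div, div_eq_div_iff e1 e2]
  linear_combination -h

theorem kap_mul_X {d : ℕ} [NeZero d] (hd : 3 ≤ d) (j : ℕ) :
    X * kap d (j + 1) = C (((j : ℝ) + 2) / (2 * j + d + 2)) * kap d (j + 2) +
      C (((j : ℝ) + d - 2) / (2 * j + d - 2)) * kap d j := by
  have hu := coef_up hd j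
  have hl := coef_dn hd j
  have hd' : (3 : ℝ) ≤ d := by exact_mod_cast hd
  have hj : (0 : ℝ) ≤ j := Nat.cast_nonneg j
  have e2 : (2 * (j : ℝ) + d) ≠ 0 := by
    have : 0 < 2 * (j : ℝ) + d := by linarith
    exact this.ne'
  unfold kap
  rw [← mul_assoc (C _) (C _), ← mul_assoc (C _) (C _), ← C_mul, ← C_mul, hu, hl]
  apply Polynomial.funext
  intro t
  have hr := PP_rec hd j t
  simp only [eval_mul, eval_add, eval_X, eval_C]
  set b := (nrm d (j + 1))⁻¹
  set p0 := (PP d j).eval t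
  set p1 := (PP d (j + 1)).eval t
  set p2 := (PP d (j + 2)).eval t
  field_simp
  linear_combination (-b) * hr

theorem kap_deriv {d : ℕ} [NeZero d] (hd : 3 ≤ d) (j : ℕ) :
    kap d (j + 1) = derivative (C (1 / (2 * (j : ℝ) + d + 2)) * kap d (j + 2) -
      C (1 / (2 * (j : ℝ) + d - 2)) * kap d j) := by
  have hu := coef_up hd j
  have hl := coef_dn hd j
  have hd' : (3 : ℝ) ≤ d := by exact_mod_cast hd
  have hj : (0 : ℝ) ≤ j := Nat.cast_nonneg j
  have e2 : (2 * (j : ℝ) + d) ≠ 0 := by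
    have : 0 < 2 * (j : ℝ) + d := by linarith
    exact this.ne'
  have h0 : (1 - X ^ 2 : ℝ[X]) ≠ 0 := by
    intro h
    have := congrArg (fun p => eval 0 p) h
    simp at this
  apply mul_left_cancel₀ h0
  apply Polynomial.funext
  intro t
  have hA := (PP_AB hd (j + 1) t).1
  have hB := (PP_AB hd j t).2
  have hr := PP_rec hd j t
  rw [show j + 1 + 1 = j + 2 by ring] at hA
  push_cast at hA
  unfold kap
  simp only [derivative_sub, derivative_mul, derivative_C, zero_mul, zero_add, eval_mul, eval_sub,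
    eval_one, eval_pow, eval_X, eval_C]
  set a := (nrm d (j + 2))⁻¹
  set b := (nrm d (j + 1))⁻¹
  set c := (nrm d j)⁻¹
  set p0 := (PP d j).eval t
  set p1 := (PP d (j + 1)).eval t
  set p2 := (PP d (j + 2)).eval t
  set q0 := (derivative (PP d j)).eval t
  set q2 := (derivative (PP d (j + 2))).eval t
  have k1 : (1 - t ^ 2) * (1 / (2 * (j : ℝ) + d + 2) * (a * q2)) =
      ((j : ℝ) + d - 1) / (2 * j + d) * b * (p1 - t * p2) := by
    rw [← hu]
    linear_combination (1 / (2 * (j : ℝ) + d + 2) * a) * hA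
  have k2 : (1 - t ^ 2) * (1 / (2 * (j : ℝ) + d - 2) * (c * q0)) =
      ((j : ℝ) + 1) / (2 * j + d) * b * (t * p0 - p1) := by
    rw [← hl]
    linear_combination (1 / (2 * (j : ℝ) + d - 2) * c) * hB
  rw [mul_sub, k1, k2]
  field_simp
  linear_combination (t * b) * hr

end Pool.Agent.Helper84.KLS
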