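import Pool.Agent.Helper84.KLS.Defs

/-!
Block K10: existence of the weights. `e = ⌊ν d⌋`, window of `h` levels below `T = ⌊τ d⌋`:
`c_(T-h+i) = r^i * sin (π i/(h+1))` for `1 ≤ i ≤ h`, `0` otherwise, `r = √(a/b)`,
`a = (τ-ν)²/(τ(1+2τ))` = limit of `up`, `b = (1+τ+ν)²/((1+τ)(1+2τ))` = limit of `dn`. Then
`up * c_(k-1) + dn * c_(k+1) → r^i √(ab) (sin(θ(i-1)) + sin(θ(i+1))) = 2√(ab) cos θ * r^i sin(θ i)`, `θ = π/(h+1)`,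
and `2√(ab) = 2(τ-ν)(1+τ+ν)/((1+2τ)√(τ(1+τ)))`. First choose `h` with `lam < 2√(ab) cos θ`, then `d` large
(finitely many `i`, `sin(θ i) > 0`; at the ends `sin 0 = sin π = 0`; outside of the window the left hand side is 0).
-/

set_option autoImplicit false

open MeasureTheory Set Metric Polynomial
open scoped RealInnerProductSpace

namespace Pool.Agent.Helper84.KLS

open Pool.Agent.Helper47.KP

theorem weights_exist (τ ν lam : ℝ) (hν : 0 < ν) (hντ : ν < τ)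
    (hlam : lam < 2 * (τ - ν) * (1 + τ + ν) / ((1 + 2 * τ) * Real.sqrt (τ * (1 + τ)))) :
    ∃ d₀ : ℕ, ∀ d : ℕ, d₀ ≤ d → ∃ c : ℕ → ℝ, (∀ k, 0 ≤ c k) ∧ c 0 = 0 ∧
      (∀ k, ⌊τ * d⌋₊ + 1 ≤ k → c k = 0) ∧ (∃ k, ⌊ν * d⌋₊ ≤ k ∧ 0 < c k) ∧
      ∀ k, lam * c k ≤ up d ⌊ν * d⌋₊ k * c (k - 1) + dn d ⌊ν * d⌋₊ k * c (k + 1) := by
  sorry

end Pool.Agent.Helper84.KLS
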