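import Pool.Agent.Helper84.KLS.Defs

/-!
Block K11: upper bound for the sum of the dimensions. By `zon_norm` + `zon_eq_nrm`:
`(nrm d k)⁻¹ = (2k+d-2)/(d-2) * C(k+d-3, k)`, so for `k ≤ T = ⌊τ d⌋`:
`≤ (2T+d-2)/(d-2) * C(T+d, T)` and `C(T+d,T) ≤ (T+d)^(T+d)/(T^T d^d) = exp(d * g(T/d)) ≤ exp(d * g τ)`,
`g u = (1+u) log(1+u) - u log u` increasing.
-/

set_option autoImplicit false

open MeasureTheory Set Metric Polynomial
open scoped RealInnerProductSpace

namespace Pool.Agent.Helper84.KLS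

open Pool.Agent.Helper47.KP

/-- growth exponent of the dimension of the spherical polynomials of degree `≤ u d` (nats) -/
noncomputable def gE (u : ℝ) : ℝ := (1 + u) * Real.log (1 + u) - u * Real.log u

theorem sum_upper (τ ε : ℝ) (hτ : 0 < τ) (hε : 0 < ε) :
    ∃ d₀ : ℕ, ∀ d : ℕ, d₀ ≤ d → ∑ k ∈ Finset.range (⌊τ * d⌋₊ + 1), (nrm d k)⁻¹ ≤
      Real.exp (d * (gE τ + ε)) := by
  sorry

end Pool.Agent.Helper84.KLS
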