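import Pool.Agent.Helper84.KLS.Defs

/-!
Block K12: lower bound for the binomial coefficient: `C(n,k) ≥ exp(n * binEntropy(k/n))/(n+1)`
(largest term of the binomial expansion of `(k + (n-k))^n`), `C(d-1,e) = C(d,e) (d-e)/d`,
continuity of `Real.binEntropy`.
-/

set_option autoImplicit false

namespace Pool.Agent.Helper84.KLS

theorem choose_lower (ν ε : ℝ) (hν : 0 < ν) (hν1 : ν < 1) (hε : 0 < ε) :
    ∃ d₀ : ℕ, ∀ d : ℕ, d₀ ≤ d →
      Real.exp (d * (Real.binEntropy ν - ε)) ≤ ((d - 1).choose ⌊ν * d⌋₊ : ℝ) := by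
  sorry

end Pool.Agent.Helper84.KLS
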