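import Pool.Agent.Helper84.KLS.K11

/-!
Block K13: numerics for `τ = 857/10000`, `ν = 37/10000`.
`num_exp`: equivalent to the integer inequality (D = 10000, k = 857, n = 37; checked in exact arithmetic)
`(D+k)^(D+k) * n^n * (D-n)^(D-n) < 2^3974 * k^k * D^(2D)`
(GMP handles it: `by norm_num` / `by decide` on naturals; take logs; see `log_of_pow` in Helper47.KP.Final).
`num_lam`: square both sides.
-/

set_option autoImplicit false

namespace Pool.Agent.Helper84.KLS

theorem num_exp : gE (857 / 10000) - Real.binEntropy (37 / 10000) < 0.3974 * Real.log 2 := by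
  sorry

theorem num_lam : (1 / 2 : ℝ) < 2 * (857 / 10000 - 37 / 10000) * (1 + 857 / 10000 + 37 / 10000) /
    ((1 + 2 * (857 / 10000)) * Real.sqrt (857 / 10000 * (1 + 857 / 10000))) := by
  sorry

end Pool.Agent.Helper84.KLS
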