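import Pool.Agent.Helper84.KLS.K9
import Pool.Agent.Helper84.KLS.K10
import Pool.Agent.Helper84.KLS.K12
import Pool.Agent.Helper84.KLS.K13

/-!
Block K14: the asymptotic bound. `code_bound` with `s = 1/2`, `lam` between `1/2` and the value of
`num_lam`, `c` from `weights_exist`, `m = ⌊τ d⌋ + 1`; then `sum_upper`, `choose_lower`, `num_exp`
(constants `(1-s)/(lam-s)` are absorbed by `exp (ε d)`).
-/

set_option autoImplicit false

open MeasureTheory Set Metric Polynomial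
open scoped RealInnerProductSpace

namespace Pool.Agent.Helper84.KLS

open Pool.Agent.Helper47.KP

theorem kiss_asymp : ∃ d₀ : ℕ, ∀ d : ℕ, d₀ ≤ d → ∀ C : Finset (EuclideanSpace ℝ (Fin d)),
    (∀ x ∈ C, ‖x‖ = 1) → (∀ x ∈ C, ∀ y ∈ C, x ≠ y → ⟪x, y⟫ ≤ 1 / 2) →
    (C.card : ℝ) ≤ (2 : ℝ) ^ ((0.3974 : ℝ) * d) := by
  sorry

end Pool.Agent.Helper84.KLS
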