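import Pool.Agent.Helper84.KLS.K1

/-!
Block K2: multiplication by `t` of the `e`-th derivative of `kap_(j+1)`.
From `kap_mul_X`, `kap_deriv` and `derivative^[e] (X * p) = X * derivative^[e] p + e * derivative^[e-1] p`.
-/

set_option autoImplicit false

open MeasureTheory Set Metric Polynomial
open scoped RealInnerProductSpace

namespace Pool.Agent.Helper84.KLS

open Pool.Agent.Helper47.KP

private lemma dk_deriv {d : ℕ} [NeZero d] (hd : 3 ≤ d) (e j : ℕ) :
    dk d e (j + 1) = C (1 / (2 * (j : ℝ) + d + 2)) * dk d (e + 1) (j + 2) -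
      C (1 / (2 * (j : ℝ) + d - 2)) * dk d (e + 1) j := by
  unfold dk
  rw [kap_deriv hd j, ← Function.iterate_succ_apply, Polynomial.iterate_derivative_sub,
    Polynomial.iterate_derivative_C_mul, Polynomial.iterate_derivative_C_mul]

theorem dk_step {d : ℕ} [NeZero d] (hd : 3 ≤ d) (e j : ℕ) :
    X * dk d e (j + 1) = C (au d e (j + 2)) * dk d e (j + 2) + C (ad d e j) * dk d e j := by
  induction e with
  | zero =>
    have h := kap_mul_X hd j
    have e1 : au d 0 (j + 2) = ((j : ℝ) + 2) / (2 * j + d + 2) := by
      unfold au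
      push_cast
      congr 1 <;> ring
    have e2 : ad d 0 j = ((j : ℝ) + d - 2) / (2 * j + d - 2) := by
      unfold ad
      push_cast
      congr 1
      ring
    rw [e1, e2]
    exact h
  | succ e ih =>
    have h1 := congrArg derivative ih
    have hs : ∀ k, derivative (dk d e k) = dk d (e + 1) k := by
      intro k
      unfold dk
      rw [Function.iterate_succ_apply']
    rw [derivative_mul, derivative_X, one_mul, derivative_add, derivative_C_mul, derivative_C_mul,
      hs, hs, hs, dk_deriv hd e j] at h1
    have hd' : (3:ℝ) ≤ d := by exact_mod_cast hd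
    have hj : (0:ℝ) ≤ j := Nat.cast_nonneg j
    have e1 : au d (e + 1) (j + 2) = au d e (j + 2) - 1 / (2 * (j : ℝ) + d + 2) := by
      unfold au
      push_cast
      have h0 : (2 * ((j:ℝ) + 2) + d - 2) = 2 * (j : ℝ) + d + 2 := by ring
      rw [h0, ← sub_div]
      congr 1
      ring
    have e2 : ad d (e + 1) j = ad d e j + 1 / (2 * (j : ℝ) + d - 2) := by
      unfold ad
      push_cast
      rw [← add_div]
      congr 1
      ring
    rw [e1, e2, C_sub, C_add]
    linear_combination h1

end Pool.Agent.Helper84.KLS
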