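import Pool.Agent.Helper84.KLS.K3a

set_option autoImplicit false

open MeasureTheory Set Metric Polynomial
open scoped RealInnerProductSpace

namespace Pool.Agent.Helper84.KLS

open Pool.Agent.Helper47.KP

theorem hasDeriv_int {d : ℕ} [NeZero d] (hd : 3 ≤ d) (g u v : Sph d → ℝ) (hg : Continuous g) (hu : Continuous u)
    (hv : Continuous v) (q : ℝ[X]) :
    HasDerivAt (fun s : ℝ => ∫ b : Sph d, g b * q.eval (Real.cos s * u b + Real.sin s * v b) ∂(sig d))
      (∫ b : Sph d, g b * (q.derivative.eval (u b) * v b) ∂(sig d)) 0 := by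
  have hc : Continuous fun p : ℝ × Sph d => g p.2 * (q.derivative.eval
      (Real.cos p.1 * u p.2 + Real.sin p.1 * v p.2) * (-Real.sin p.1 * u p.2 + Real.cos p.1 * v p.2)) := by
    have : Continuous fun p : ℝ × Sph d => q.derivative.eval (Real.cos p.1 * u p.2 + Real.sin p.1 * v p.2) :=
      q.derivative.continuous.comp (by fun_prop)
    fun_prop
  obtain ⟨M, hM⟩ := (isCompact_Icc (a := (-1:ℝ)) (b := 1)).prod (isCompact_univ : IsCompact (univ : Set (Sph d))) |>.exists_bound_of_continuousOn hc.continuousOn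
  have hs : Icc (-1:ℝ) 1 ∈ nhds (0:ℝ) := Icc_mem_nhds (by norm_num) (by norm_num)
  have hcF : ∀ s : ℝ, Continuous fun b : Sph d => g b * q.eval (Real.cos s * u b + Real.sin s * v b) := by
    intro s
    have : Continuous fun b : Sph d => q.eval (Real.cos s * u b + Real.sin s * v b) :=
      q.continuous.comp (by fun_prop)
    fun_prop
  have key := hasDerivAt_integral_of_dominated_loc_of_deriv_le (μ := sig d) (𝕜 := ℝ)
    (F := fun s b => g b * q.eval (Real.cos s * u b + Real.sin s * v b))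
    (F' := fun s b => g b * (q.derivative.eval (Real.cos s * u b + Real.sin s * v b) *
      (-Real.sin s * u b + Real.cos s * v b))) (x₀ := 0) (s := Icc (-1:ℝ) 1) (bound := fun _ => M) hs
    (Filter.Eventually.of_forall fun s => (hcF s).aestronglyMeasurable)
    ((hcF 0).integrable_of_hasCompactSupport (HasCompactSupport.of_compactSpace _))
    ((hc.comp (Continuous.prodMk_right (0:ℝ))).aestronglyMeasurable)
    (Filter.Eventually.of_forall fun b s hs' => hM (s, b) ⟨hs', mem_univ _⟩)
    (integrable_const _)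
    (Filter.Eventually.of_forall fun b s _ => by
      have h1 : HasDerivAt (fun s : ℝ => Real.cos s * u b + Real.sin s * v b)
          (-Real.sin s * u b + Real.cos s * v b) s :=
        ((Real.hasDerivAt_cos s).mul_const _).add ((Real.hasDerivAt_sin s).mul_const _)
      have h2 := (q.hasDerivAt (Real.cos s * u b + Real.sin s * v b)).comp s h1
      exact (h2.const_mul (g b)))
  have h3 := key.2
  simpa using h3

theorem repro_dk {d : ℕ} [NeZero d] (hd : 3 ≤ d) (e i k : ℕ) (x : EE d) (ε : Fin e → EE d)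
    (hx : ‖x‖ = 1) (hε : Orthonormal ℝ ε) (hxε : ∀ l, ⟪x, ε l⟫ = 0) (a : Sph d) :
    ∫ b : Sph d, (kap d i).eval ⟪(a : EE d), (b : EE d)⟫ *
        ((dk d e k).eval ⟪x, (b : EE d)⟫ * ∏ l, ⟪ε l, (b : EE d)⟫) ∂(sig d) =
      if i = k then (dk d e k).eval ⟪x, (a : EE d)⟫ * ∏ l, ⟪ε l, (a : EE d)⟫ else 0 := by
  induction e generalizing x with
  | zero =>
    have := repro_zero hd i k ⟨x, by simpa using hx⟩ a
    simpa [dk] using this
  | succ e ih =>
    have hdk : dk d (e+1) k = (dk d e k).derivative := by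
      simp [dk, Function.iterate_succ_apply']
    set f := ε (Fin.last e) with hf
    have hfn : ‖f‖ = 1 := hε.1 _
    have hxf : ⟪x, f⟫ = 0 := hxε _
    set ε' : Fin e → EE d := fun l => ε l.castSucc with hε'
    have hε'o : Orthonormal ℝ ε' := hε.comp _ (Fin.castSucc_injective e)
    have hfε' : ∀ l, ⟪f, ε' l⟫ = 0 := fun l => hε.2 (Fin.castSucc_lt_last l).ne'
    have hns : ∀ s : ℝ, ‖Real.cos s • x + Real.sin s • f‖ = 1 := by
      intro s
      have h1 : ‖Real.cos s • x + Real.sin s • f‖ ^ 2 = 1 := by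
        rw [norm_add_sq_real, norm_smul, norm_smul, hx, hfn, inner_smul_left, inner_smul_right, hxf]
        simp [Real.cos_sq_add_sin_sq]
      have h2 := norm_nonneg (Real.cos s • x + Real.sin s • f)
      nlinarith
    have hIH : ∀ s : ℝ, _ := fun s => ih (Real.cos s • x + Real.sin s • f) ε' (hns s) hε'o (by
      intro l
      rw [inner_add_left, inner_smul_left, inner_smul_left, hxε, hfε']
      simp)
    have hcoer : ∀ y : EE d, Continuous fun b : Sph d => ⟪y, (b : EE d)⟫ := fun y => by fun_prop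
    have hL := hasDeriv_int hd
      (fun b : Sph d => (kap d i).eval ⟪(a : EE d), (b : EE d)⟫ * ∏ l, ⟪ε' l, (b : EE d)⟫)
      (fun b => ⟪x, (b : EE d)⟫) (fun b => ⟪f, (b : EE d)⟫)
      (((kap d i).continuous.comp (hcoer _)).mul (continuous_finsetProd _ fun l _ => hcoer _))
      (hcoer _) (hcoer _) (dk d e k)
    have hR : HasDerivAt (fun s : ℝ => if i = k then
        (dk d e k).eval (Real.cos s * ⟪x, (a : EE d)⟫ + Real.sin s * ⟪f, (a : EE d)⟫) *
          ∏ l, ⟪ε' l, (a : EE d)⟫ else 0)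
        (if i = k then ((dk d e k).derivative.eval ⟪x, (a : EE d)⟫ * ⟪f, (a : EE d)⟫) *
          ∏ l, ⟪ε' l, (a : EE d)⟫ else 0) 0 := by
      split_ifs with hik
      · have h1 : HasDerivAt (fun s : ℝ => Real.cos s * ⟪x, (a : EE d)⟫ + Real.sin s * ⟪f, (a : EE d)⟫)
            (-Real.sin 0 * ⟪x, (a : EE d)⟫ + Real.cos 0 * ⟪f, (a : EE d)⟫) 0 :=
          ((Real.hasDerivAt_cos 0).mul_const _).add ((Real.hasDerivAt_sin 0).mul_const _)
        have h2 := ((dk d e k).hasDerivAt (Real.cos 0 * ⟪x, (a : EE d)⟫ + Real.sin 0 * ⟪f, (a : EE d)⟫)).comp 0 h1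
        have h3 := h2.mul_const (∏ l, ⟪ε' l, (a : EE d)⟫)
        simpa using h3
      · exact hasDerivAt_const _ _
    have hfun : (fun s : ℝ => ∫ b : Sph d, ((kap d i).eval ⟪(a : EE d), (b : EE d)⟫ *
        ∏ l, ⟪ε' l, (b : EE d)⟫) * (dk d e k).eval
          (Real.cos s * ⟪x, (b : EE d)⟫ + Real.sin s * ⟪f, (b : EE d)⟫) ∂(sig d)) =
        (fun s : ℝ => if i = k then
        (dk d e k).eval (Real.cos s * ⟪x, (a : EE d)⟫ + Real.sin s * ⟪f, (a : EE d)⟫) *
          ∏ l, ⟪ε' l, (a : EE d)⟫ else 0) := by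
      funext s
      have h := hIH s
      simp only [inner_add_left, inner_smul_left, conj_trivial] at h
      rw [← h]
      refine integral_congr_ae (Filter.Eventually.of_forall fun b => ?_)
      simp only
      ring
    rw [hfun] at hL
    have huniq := hL.unique hR
    rw [hdk]
    rw [show (∫ b : Sph d, (kap d i).eval ⟪(a : EE d), (b : EE d)⟫ *
        ((dk d e k).derivative.eval ⟪x, (b : EE d)⟫ * ∏ l, ⟪ε l, (b : EE d)⟫) ∂(sig d)) =
        ∫ b : Sph d, ((kap d i).eval ⟪(a : EE d), (b : EE d)⟫ * ∏ l, ⟪ε' l, (b : EE d)⟫) *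
          ((dk d e k).derivative.eval ⟪x, (b : EE d)⟫ * ⟪f, (b : EE d)⟫) ∂(sig d) from ?_, huniq]
    · split_ifs with hik
      · rw [Fin.prod_univ_castSucc]; ring
      · rfl
    · refine integral_congr_ae (Filter.Eventually.of_forall fun b => ?_)
      simp only
      rw [Fin.prod_univ_castSucc]; ring

end Pool.Agent.Helper84.KLS
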