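import Pool.Agent.Helper84.KLS.Defs

/-!
Block K3a: reproduction by zonal kernels, `conv_eq` and `PP_orth` (Helper47.KP).
-/

set_option autoImplicit false

open MeasureTheory Set Metric Polynomial
open scoped RealInnerProductSpace

namespace Pool.Agent.Helper84.KLS

open Pool.Agent.Helper47.KP

theorem repro_zero {d : ℕ} [NeZero d] (hd : 3 ≤ d) (i k : ℕ) (x a : Sph d) :
    ∫ b : Sph d, (kap d i).eval ⟪(a : EE d), (b : EE d)⟫ * (kap d k).eval ⟪(x : EE d), (b : EE d)⟫ ∂(sig d) =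
      if i = k then (kap d k).eval ⟪(x : EE d), (a : EE d)⟫ else 0 := by
  have e : ∫ b : Sph d, (kap d i).eval ⟪(a : EE d), (b : EE d)⟫ *
      (kap d k).eval ⟪(x : EE d), (b : EE d)⟫ ∂(sig d) =
      ((nrm d i)⁻¹ * (nrm d k)⁻¹) * ∫ b : Sph d, (PP d i).eval ⟪(a : EE d), (b : EE d)⟫ *
        (PP d k).eval ⟪(x : EE d), (b : EE d)⟫ ∂(sig d) := by
    rw [← integral_const_mul]
    congr 1
    funext b
    simp only [kap, eval_mul, eval_C]
    ring
  rw [e]
  by_cases h : i = k
  · subst h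
    rw [if_pos rfl]
    have h1 := conv_eq hd i a x
    unfold conv at h1
    have hn := (nrm_pos hd (d := d) i).ne'
    have h2 : ∫ b : Sph d, (PP d i).eval ⟪(a : EE d), (b : EE d)⟫ *
        (PP d i).eval ⟪(x : EE d), (b : EE d)⟫ ∂(sig d) =
        nrm d i * (PP d i).eval ⟪(a : EE d), x⟫ := by
      rw [← h1]
    rw [h2]
    simp only [kap, eval_mul, eval_C]
    rw [real_inner_comm]
    field_simp
  · rw [if_neg h, PP_orth hd h a x, mul_zero]

end Pool.Agent.Helper84.KLS
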