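import Pool.Agent.Helper84.KLS.K2
import Pool.Agent.Helper84.KLS.K3

/-!
Block K4: the functions `psiC` of a code form a system `Sys`.
`repro`: from `repro_dk` with `ε` = enumeration of `Q`; `step`: from `dk_step`.
-/

set_option autoImplicit false

open MeasureTheory Set Metric Polynomial
open scoped RealInnerProductSpace

namespace Pool.Agent.Helper84.KLS

open Pool.Agent.Helper47.KP

theorem UU_bv {d : ℕ} [NeZero d] (x : Sph d) : UU x (bv 0) = (x : EE d) := by
  unfold UU
  apply Submodule.reflection_sub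
  rw [norm_S x, bv]
  simp

theorem continuous_psi {d : ℕ} [NeZero d] (e k : ℕ) (U : EE d ≃ₗᵢ[ℝ] EE d) (Q : Finset (Fin d)) :
    Continuous (psi e k U Q) := by
  unfold psi
  have h : ∀ v : EE d, Continuous fun a : Sph d => ⟪v, (a : EE d)⟫ := fun v =>
    continuous_const.inner continuous_subtype_val
  exact ((dk d e k).continuous.comp (h _)).mul (continuous_finsetProd _ fun l _ => h _)

private theorem orth_bv29 {d : ℕ} : Orthonormal ℝ (fun l : Fin d => (bv l : EE d)) := by
  have := EuclideanSpace.orthonormal_single (𝕜 := ℝ) (ι := Fin d)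
  exact this

theorem psi_repro {d : ℕ} [NeZero d] (hd : 3 ≤ d) (e k i : ℕ) (U : EE d ≃ₗᵢ[ℝ] EE d)
    (Q : Finset (Fin d)) (hQ : Q ∈ QQ d e) (a : Sph d) :
    ∫ b : Sph d, (kap d i).eval ⟪(a : EE d), (b : EE d)⟫ * psi e k U Q b ∂(sig d) =
      if i = k then psi e k U Q a else 0 := by
  unfold QQ at hQ
  rw [Finset.mem_powersetCard] at hQ
  obtain ⟨hQ1, hQ2⟩ := hQ
  set en : Fin e → Fin d := fun l => (Q.orderIsoOfFin hQ2 l : Fin d) with hen
  have hinj : Function.Injective en := by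
    intro l l' h
    exact (Q.orderIsoOfFin hQ2).injective (Subtype.ext h)
  have hprod : ∀ b : Sph d, ∏ l : Fin e, ⟪U (bv (en l)), (b : EE d)⟫ =
      ∏ l ∈ Q, ⟪U (bv l), (b : EE d)⟫ := by
    intro b
    rw [← Finset.prod_coe_sort Q]
    exact Equiv.prod_comp (Q.orderIsoOfFin hQ2).toEquiv
      (fun x : Q => ⟪U (bv (x : Fin d)), (b : EE d)⟫)
  have hx : ‖U (bv 0)‖ = 1 := by
    rw [LinearIsometryEquiv.norm_map]
    exact orth_bv29.1 0
  have hon : Orthonormal ℝ (fun l => U (bv (en l))) := by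
    have h1 : Orthonormal ℝ (fun l : Fin e => (bv (en l) : EE d)) := orth_bv29.comp en hinj
    exact h1.comp_linearIsometryEquiv U
  have hxe : ∀ l, ⟪U (bv 0), U (bv (en l))⟫ = 0 := by
    intro l
    rw [LinearIsometryEquiv.inner_map_map]
    refine orth_bv29.2 ?_
    intro h0
    have hl : en l ∈ Q := (Q.orderIsoOfFin hQ2 l).2
    have := hQ1 hl
    rw [← h0] at this
    simp at this
  have h := repro_dk hd e i k (U (bv 0)) (fun l => U (bv (en l))) hx hon hxe a
  simp only [hprod] at h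
  exact h

/-- the index set must consist of sets `Q` in `QQ d e`; outside we use the zero function -/
theorem sys_psi {d : ℕ} [NeZero d] (hd : 3 ≤ d) (e : ℕ) :
    Sys d e (fun α : Sph d × {Q : Finset (Fin d) // Q ∈ QQ d e} => α.1)
      (fun α k a => psi e k (UU α.1) α.2 a) := by
  refine ⟨?_, ?_, ?_⟩
  · intro α k
    exact continuous_psi e k (UU α.1) α.2
  · intro α k i a
    exact psi_repro hd e k i (UU α.1) α.2 α.2.2 a
  · intro α j a
    have h := congrArg (Polynomial.eval ⟪(α.1 : EE d), (a : EE d)⟫) (dk_step hd e j)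
    simp only [eval_mul, eval_add, eval_X, eval_C] at h
    unfold psi
    rw [UU_bv]
    calc ⟪(α.1 : EE d), (a : EE d)⟫ * ((dk d e (j + 1)).eval ⟪(α.1 : EE d), (a : EE d)⟫ *
          ∏ l ∈ (α.2 : Finset (Fin d)), ⟪UU α.1 (bv l), (a : EE d)⟫)
        = (⟪(α.1 : EE d), (a : EE d)⟫ * (dk d e (j + 1)).eval ⟪(α.1 : EE d), (a : EE d)⟫) *
          ∏ l ∈ (α.2 : Finset (Fin d)), ⟪UU α.1 (bv l), (a : EE d)⟫ := by ring
      _ = _ := by rw [h]; ring

end Pool.Agent.Helper84.KLS
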