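import Pool.Agent.Helper84.KLS.Defs

/-!
Block K5: the diagonal block of the Gram matrix. Everything from `integral_rotS` (rotation
invariance of `sig d`): with `V` an isometry, `psi e k U Q (rotS V a) = psi e k (V⁻¹ U) Q a`.
Off diagonal: reflect `bv l` for some `l ∈ Q \ Q'` (0 ∉ Q). Diagonal: a permutation of the
coordinates that fixes 0 maps `Q` to `Q'`.
-/

set_option autoImplicit false

open MeasureTheory Set Metric Polynomial
open scoped RealInnerProductSpace

namespace Pool.Agent.Helper84.KLS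

open Pool.Agent.Helper47.KP

private lemma h60_perm {d : ℕ} [NeZero d] {e : ℕ} {Q Q' : Finset (Fin d)}
    (hQ : Q ∈ QQ d e) (hQ' : Q' ∈ QQ d e) :
    ∃ σ : Equiv.Perm (Fin d), σ 0 = 0 ∧ Q.map σ.toEmbedding = Q' := by
  obtain ⟨h1, h2⟩ := Finset.mem_powersetCard.1 hQ
  obtain ⟨h3, h4⟩ := Finset.mem_powersetCard.1 hQ'
  have hc : Q.card = Q'.card := by rw [h2, h4]
  set τ : Equiv.Perm (Fin d) := (Finset.equivOfCardEq hc).extendSubtype with hτ
  have hτm : ∀ l ∈ Q, τ l ∈ Q' := fun l hl => Equiv.extendSubtype_mem (Finset.equivOfCardEq hc) l hl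
  have h0 : (0 : Fin d) ∉ Q := fun h => by simpa using h1 h
  have h0' : (0 : Fin d) ∉ Q' := fun h => by simpa using h3 h
  refine ⟨τ.trans (Equiv.swap (τ 0) 0), by simp, ?_⟩
  apply Finset.eq_of_subset_of_card_le
  · intro x hx
    obtain ⟨l, hl, rfl⟩ := Finset.mem_map.1 hx
    have e1 : τ l ≠ τ 0 := fun h => h0 (by rw [← τ.injective h]; exact hl)
    have e2 : τ l ≠ 0 := fun h => h0' (by rw [← h]; exact hτm l hl)
    have e3 : (τ.trans (Equiv.swap (τ 0) 0)) l = τ l := by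
      simp [Equiv.swap_apply_of_ne_of_ne e1 e2]
    change (τ.trans (Equiv.swap (τ 0) 0)) l ∈ Q'
    rw [e3]
    exact hτm l hl
  · rw [Finset.card_map, hc]

theorem block_diag {d : ℕ} [NeZero d] (e k : ℕ) (U V : EE d ≃ₗᵢ[ℝ] EE d) {Q Q' : Finset (Fin d)}
    (hQ : Q ∈ QQ d e) (hQ' : Q' ∈ QQ d e) :
    ∫ a : Sph d, psi e k U Q a * psi e k U Q a ∂(sig d) =
      ∫ a : Sph d, psi e k V Q' a * psi e k V Q' a ∂(sig d) := by
  obtain ⟨σ, h0, hσ⟩ := h60_perm hQ hQ'
  set P : EE d ≃ₗᵢ[ℝ] EE d := LinearIsometryEquiv.piLpCongrLeft 2 ℝ ℝ σ with hP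
  have hPb : ∀ l, P (bv l) = bv (σ l) := fun l => by
    rw [hP, bv, bv]
    exact LinearIsometryEquiv.piLpCongrLeft_single σ l (1 : ℝ)
  set W : EE d ≃ₗᵢ[ℝ] EE d := (U.symm.trans P).trans V with hW
  have hWU : ∀ l, W (U (bv l)) = V (bv (σ l)) := fun l => by
    rw [hW]
    simp [hPb]
  have key : ∀ a : Sph d, psi e k V Q' (rotS W a) = psi e k U Q a := by
    intro a
    have h1 : ∀ l, ⟪V (bv (σ l)), ((rotS W a : Sph d) : EE d)⟫ = ⟪U (bv l), (a : EE d)⟫ := by
      intro l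
      rw [rotS_coe, ← hWU, LinearIsometryEquiv.inner_map_map]
    unfold psi
    have h2 := h1 0
    rw [h0] at h2
    rw [h2, ← hσ, Finset.prod_map]
    congr 1
    exact Finset.prod_congr rfl fun l _ => h1 l
  rw [← integral_rotS W (fun a => psi e k V Q' a * psi e k V Q' a)]
  exact integral_congr_ae (Filter.Eventually.of_forall fun a => by simp only [key])

end Pool.Agent.Helper84.KLS
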