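import Pool.Agent.Helper84.KLS.Defs

/-!
Block K5: the diagonal block of the Gram matrix. Everything from `integral_rotS` (rotation
invariance of `sig d`): with `V` an isometry, `psi e k U Q (rotS V a) = psi e k (V⁻¹ U) Q a`.
Off diagonal: reflect `bv l` for some `l ∈ Q \ Q'` (0 ∉ Q). Diagonal: a permutation of the
coordinates that fixes 0 maps `Q` to `Q'`.
-/

set_option autoImplicit false

open MeasureTheory Set Metric Polynomial
open scoped RealInnerProductSpace

namespace Pool.Agent.Helper84.KLS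

open Pool.Agent.Helper47.KP

private lemma h4_coeff_PP {d : ℕ} (hd : 3 ≤ d) (j : ℕ) : 0 < (PP d j).coeff j := by
  have hd' : (3 : ℝ) ≤ d := by exact_mod_cast hd
  have main : ∀ j, 0 < (PP d j).coeff j ∧ 0 < (PP d (j+1)).coeff (j+1) := by
    intro j
    induction j with
    | zero =>
      refine ⟨?_, ?_⟩
      · rw [PP_zero]; simp
      · rw [PP_one]; simp
    | succ j ih =>
      refine ⟨ih.2, ?_⟩
      rw [PP_succ, coeff_sub, coeff_C_mul, coeff_C_mul, coeff_X_mul]
      have h0 : (PP d j).coeff (j + 1 + 1) = 0 :=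
        coeff_eq_zero_of_natDegree_lt (lt_of_le_of_lt (natDegree_PP j) (by omega))
      rw [h0, mul_zero, sub_zero]
      have hj : (0 : ℝ) ≤ j := Nat.cast_nonneg j
      exact mul_pos (div_pos (by linarith) (by linarith)) ih.2
  exact (main j).1

private lemma h4_dk_ne {d : ℕ} [NeZero d] (hd : 3 ≤ d) {e k : ℕ} (hek : e ≤ k) :
    dk d e k ≠ 0 := by
  intro h
  have h1 : (dk d e k).coeff (k - e) = 0 := by rw [h]; simp
  unfold dk kap at h1
  rw [coeff_iterate_derivative, Nat.sub_add_cancel hek, coeff_C_mul, nsmul_eq_mul] at h1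
  have h2 := h4_coeff_PP hd k
  have h3 := nrm_pos hd (d := d) k
  have h4 : 0 < (k.descFactorial e : ℝ) := by exact_mod_cast Nat.descFactorial_pos.2 hek
  have h5 : 0 < (k.descFactorial e : ℝ) * ((nrm d k)⁻¹ * (PP d k).coeff k) := by positivity
  exact h5.ne' h1

private lemma h4_inner_bv {d : ℕ} (l : Fin d) (w : EE d) : ⟪(bv l : EE d), w⟫ = w l := by
  unfold bv
  rw [EuclideanSpace.inner_single_left]
  simp

/-- positivity: `dk d e k ≠ 0` for `e ≤ k`, and `psi` is continuous and not identically zero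
(natDegree of `PP d k` is `k`; the sphere has a point where the polynomial and all coordinates in
`Q` do not vanish; `sig` is positive on open sets, see the proof of `zonal_zero` in KP/FH) -/
theorem diag_pos {d : ℕ} [NeZero d] (hd : 3 ≤ d) {e k : ℕ} (hek : e ≤ k) (U : EE d ≃ₗᵢ[ℝ] EE d)
    {Q : Finset (Fin d)} (hQ : Q ∈ QQ d e) :
    0 < ∫ a : Sph d, psi e k U Q a * psi e k U Q a ∂(sig d) := by
  have hp := h4_dk_ne hd hek
  obtain ⟨t, ht, htp⟩ : ∃ t ∈ Ioo (-1 : ℝ) 1, (dk d e k).eval t ≠ 0 := by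
    by_contra hcon
    push Not at hcon
    apply hp
    apply Polynomial.eq_zero_of_infinite_isRoot
    exact (Set.Ioo_infinite (by norm_num : (-1 : ℝ) < 1)).mono fun t ht => hcon t ht
  have hd1 : (0 : ℝ) < d - 1 := by
    have : (3 : ℝ) ≤ d := by exact_mod_cast hd
    linarith
  have ht2 : 0 < 1 - t ^ 2 := by nlinarith [ht.1, ht.2]
  set s : ℝ := Real.sqrt ((1 - t ^ 2) / (d - 1)) with hs
  have hs0 : 0 < s := Real.sqrt_pos.2 (div_pos ht2 hd1)
  have hs2 : s ^ 2 = (1 - t ^ 2) / (d - 1) := Real.sq_sqrt (div_pos ht2 hd1).le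
  let w : EE d := WithLp.toLp 2 (fun l : Fin d => if l = 0 then t else s)
  have hw0 : w 0 = t := by simp [w]
  have hwl : ∀ l : Fin d, l ≠ 0 → w l = s := by
    intro l hl
    simp [w, hl]
  have hwn : ‖w‖ = 1 := by
    have h1 : ‖w‖ ^ 2 = 1 := by
      rw [EuclideanSpace.norm_sq_eq]
      rw [← Finset.add_sum_erase _ _ (Finset.mem_univ (0 : Fin d)), hw0]
      have h2 : ∑ l ∈ Finset.univ.erase (0 : Fin d), ‖w l‖ ^ 2 = ((d : ℝ) - 1) * s ^ 2 := by
        rw [Finset.sum_congr rfl (g := fun _ => s ^ 2) (fun l hl => by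
          rw [hwl l (Finset.ne_of_mem_erase hl), Real.norm_eq_abs, sq_abs])]
        rw [Finset.sum_const, Finset.card_erase_of_mem (Finset.mem_univ _), Finset.card_univ,
          Fintype.card_fin, nsmul_eq_mul, Nat.cast_sub (by omega)]
        simp
      rw [h2, hs2, Real.norm_eq_abs, sq_abs, mul_div_cancel₀ _ hd1.ne']
      ring
    have h2 : ‖w‖ ^ 2 = 1 ^ 2 := by rw [h1]; norm_num
    exact (pow_left_inj₀ (norm_nonneg _) (by norm_num) two_ne_zero).1 h2
  let a : Sph d := ⟨U w, by rw [mem_sphere_zero_iff_norm, LinearIsometryEquiv.norm_map, hwn]⟩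
  have hcont : Continuous (psi e k U Q) := by
    unfold psi
    have h : ∀ v : EE d, Continuous fun a : Sph d => ⟪v, (a : EE d)⟫ := fun v =>
      continuous_const.inner continuous_subtype_val
    exact ((dk d e k).continuous.comp (h _)).mul (continuous_finsetProd _ fun l _ => h _)
  have ha : psi e k U Q a ≠ 0 := by
    have hinn : ∀ l : Fin d, ⟪U (bv l), (a : EE d)⟫ = w l := by
      intro l
      show ⟪U (bv l), U w⟫ = w l
      rw [LinearIsometryEquiv.inner_map_map, h4_inner_bv]
    unfold psi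
    rw [hinn 0, hw0]
    refine mul_ne_zero htp ?_
    rw [Finset.prod_ne_zero_iff]
    intro l hl
    rw [hinn l]
    have hl0 : l ≠ 0 := by
      unfold QQ at hQ
      rw [Finset.mem_powersetCard] at hQ
      exact Finset.ne_of_mem_erase (hQ.1 hl)
    rw [hwl l hl0]
    exact hs0.ne'
  exact Continuous.integral_pos_of_hasCompactSupport_nonneg_nonzero (μ := sig d)
    (hcont.mul hcont) (HasCompactSupport.of_compactSpace _)
    (fun x => mul_self_nonneg _) (x := a) (mul_self_ne_zero.2 ha)

end Pool.Agent.Helper84.KLS
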