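import Pool.Agent.Helper84.KLS.Defs

/-!
Block K5: the diagonal block of the Gram matrix. Everything from `integral_rotS` (rotation
invariance of `sig d`); with `V` an isometry, `psi e k U Q (rotS V a) = psi e k (V⁻¹ U) Q a`.
Off diagonal: reflect `bv l` for some `l ∈ Q \ Q'` (0 ∉ Q). Diagonal: a permutation of the
coordinates that fixes 0 maps `Q` to `Q'`.
-/

set_option autoImplicit false

open MeasureTheory Set Metric Polynomial
open scoped RealInnerProductSpace

namespace Pool.Agent.Helper84.KLS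

open Pool.Agent.Helper47.KP

private lemma h36_inner_bv {d : ℕ} (U : EE d ≃ₗᵢ[ℝ] EE d) {m l : Fin d} (h : m ≠ l) :
    ⟪U (bv m), U (bv l)⟫ = 0 := by
  rw [LinearIsometryEquiv.inner_map_map]
  simp [bv, EuclideanSpace.inner_single_left, h]

private lemma h36_inner_refl {d : ℕ} (v w : EE d) (a : EE d) :
    ⟪w, (ℝ ∙ v)ᗮ.reflection a⟫ = ⟪(ℝ ∙ v)ᗮ.reflection w, a⟫ := by
  rw [← LinearIsometryEquiv.inner_map_map ((ℝ ∙ v)ᗮ.reflection) w, Submodule.reflection_reflection]

theorem block_off {d : ℕ} [NeZero d] (e k : ℕ) (U : EE d ≃ₗᵢ[ℝ] EE d) {Q Q' : Finset (Fin d)}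
    (hQ : Q ∈ QQ d e) (hQ' : Q' ∈ QQ d e) (hne : Q ≠ Q') :
    ∫ a : Sph d, psi e k U Q a * psi e k U Q' a ∂(sig d) = 0 := by
  classical
  have hQs := (Finset.mem_powersetCard.mp hQ).1
  have hQc := (Finset.mem_powersetCard.mp hQ).2
  have hQs' := (Finset.mem_powersetCard.mp hQ').1
  have hQc' := (Finset.mem_powersetCard.mp hQ').2
  obtain ⟨l, hl, hl'⟩ : ∃ l ∈ Q, l ∉ Q' := by
    by_contra hcon
    push Not at hcon
    exact hne (Finset.eq_of_subset_of_card_le hcon (by rw [hQc, hQc']))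
  have hl0 : (0 : Fin d) ≠ l := fun h => by
    have := hQs hl
    simp [← h] at this
  set V := (ℝ ∙ (U (bv l)))ᗮ.reflection with hV
  have hVl : V (U (bv l)) = - U (bv l) := Submodule.reflection_orthogonalComplement_singleton_eq_neg _
  have hVm : ∀ m, m ≠ l → V (U (bv m)) = U (bv m) := fun m hm => by
    rw [hV]
    apply Submodule.reflection_mem_subspace_eq_self
    rw [Submodule.mem_orthogonal_singleton_iff_inner_left]
    exact h36_inner_bv U hm
  have hin : ∀ w (a : Sph d), ⟪w, (rotS V a : EE d)⟫ = ⟪V w, (a : EE d)⟫ := fun w a => by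
    rw [rotS_coe]; exact h36_inner_refl _ _ _
  have h0 : ∀ a : Sph d, ⟪U (bv 0), (rotS V a : EE d)⟫ = ⟪U (bv 0), (a : EE d)⟫ := fun a => by
    rw [hin, hVm _ hl0]
  have hp' : ∀ a : Sph d, psi e k U Q' (rotS V a) = psi e k U Q' a := fun a => by
    unfold psi
    rw [h0]
    congr 1
    refine Finset.prod_congr rfl fun m hm => ?_
    rw [hin, hVm m (fun h => hl' (h ▸ hm))]
  have hp : ∀ a : Sph d, psi e k U Q (rotS V a) = - psi e k U Q a := fun a => by
    unfold psi
    rw [h0, ← Finset.mul_prod_erase Q _ hl, ← Finset.mul_prod_erase Q _ hl, hin (U (bv l)), hVl,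
      inner_neg_left]
    have : ∏ x ∈ Q.erase l, ⟪U (bv x), (rotS V a : EE d)⟫ = ∏ x ∈ Q.erase l, ⟪U (bv x), (a : EE d)⟫ := by
      refine Finset.prod_congr rfl fun m hm => ?_
      rw [hin, hVm m (Finset.ne_of_mem_erase hm)]
    rw [this]
    ring
  have hI := integral_rotS V (fun a => psi e k U Q a * psi e k U Q' a)
  simp only [hp, hp', neg_mul, integral_neg] at hI
  linarith

end Pool.Agent.Helper84.KLS
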