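import Pool.Agent.Helper84.KLS.Defs

/-!
Block K6a: different levels are orthogonal: `ψ_α^i(a) = ∫ kap_i(<a,b>) ψ_α^i(b) db` (repro), Fubini, repro for `ψ_β^k`.
-/

set_option autoImplicit false

open MeasureTheory Set Metric Polynomial
open scoped RealInnerProductSpace

namespace Pool.Agent.Helper84.KLS

open Pool.Agent.Helper47.KP

theorem Sys.orth {d : ℕ} [NeZero d] (hd : 3 ≤ d) {e : ℕ} {ι : Type} {x : ι → Sph d}
    {ψ : ι → ℕ → Sph d → ℝ} (hS : Sys d e x ψ) {i k : ℕ} (hik : i ≠ k) (α β : ι) :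
    ∫ a : Sph d, ψ α i a * ψ β k a ∂(sig d) = 0 := by
  have h1 : ∀ a : Sph d, ψ α i a * ψ β k a =
      ∫ b : Sph d, (kap d i).eval ⟪(a : EE d), (b : EE d)⟫ * ψ α i b * ψ β k a ∂(sig d) := by
    intro a
    rw [integral_mul_const, hS.repro α i i a, if_pos rfl]
  simp only [h1]
  rw [integral_integral_swap]
  · have h2 : ∀ b : Sph d, ∫ a : Sph d,
        (kap d i).eval ⟪(a : EE d), (b : EE d)⟫ * ψ α i b * ψ β k a ∂(sig d) = 0 := by
      intro b
      have h3 := hS.repro β k i b
      rw [if_neg hik] at h3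
      have h4 : ∀ a : Sph d, (kap d i).eval ⟪(a : EE d), (b : EE d)⟫ * ψ α i b * ψ β k a =
          ψ α i b * ((kap d i).eval ⟪(b : EE d), (a : EE d)⟫ * ψ β k a) := by
        intro a
        rw [real_inner_comm (a : EE d) (b : EE d)]
        ring
      simp only [h4]
      rw [integral_const_mul, h3, mul_zero]
    simp only [h2, integral_zero]
  · apply integrable_prod_of_continuous
      (f := fun p : Sph d × Sph d => (kap d i).eval ⟪(p.1 : EE d), (p.2 : EE d)⟫ * ψ α i p.2 * ψ β k p.1)
    exact ((((kap d i).continuous.comp continuous_inner2).mul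
      ((hS.cont α i).comp continuous_snd)).mul ((hS.cont β k).comp continuous_fst))

end Pool.Agent.Helper84.KLS
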