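import Pool.Agent.Helper84.KLS.Defs

/-!
Block K6b: zonal kernels are positive semidefinite: `TT_inner_eq`, `QF` in Helper47.KP.Op.
-/

set_option autoImplicit false

open MeasureTheory Set Metric Polynomial
open scoped RealInnerProductSpace

namespace Pool.Agent.Helper84.KLS

open Pool.Agent.Helper47.KP

theorem kform_nonneg {d : ℕ} [NeZero d] (hd : 3 ≤ d) (j : ℕ) {f : Sph d → ℝ} (hf : Continuous f) :
    0 ≤ ∫ a : Sph d, ∫ b : Sph d, (kap d j).eval ⟪(a : EE d), (b : EE d)⟫ * (f a * f b) ∂(sig d) ∂(sig d) := by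
  obtain ⟨B, hB⟩ := (isCompact_range hf).isBounded.exists_norm_le
  have h : BM f B := ⟨hf.measurable, fun x => hB _ ⟨x, rfl⟩⟩
  have h1 := QF_PP_nonneg hd j h
  have h2 : ∫ a : Sph d, ∫ b : Sph d, (kap d j).eval ⟪(a : EE d), (b : EE d)⟫ * (f a * f b)
      ∂(sig d) ∂(sig d) = (nrm d j)⁻¹ * QF (fun t => (PP d j).eval t) f := by
    unfold QF
    rw [← integral_const_mul]
    congr 1; funext a
    rw [← mul_assoc, ← integral_const_mul]
    congr 1; funext b
    simp only [kap, eval_mul, eval_C]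
    ring
  rw [h2]
  exact mul_nonneg (inv_nonneg.2 (nrm_pos hd j).le) h1

end Pool.Agent.Helper84.KLS
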