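import Pool.Agent.Helper84.KLS.K1
import Pool.Agent.Helper84.KLS.K6a
import Pool.Agent.Helper84.KLS.K6b

/-!
Block K6: the matrix `M` is positive semidefinite.
`kform j f g = ∫∫ kap_j(<a,b>) f(a) g(b)`. It is bilinear on continuous functions, and
`kform j f f ≥ 0` (`TT_inner_eq` in KP/Op, or: kap_j(<a,b>) = ∫ kap_j(<a,z>) kap_j(<b,z>) dz).
Then with `p = (j+2-e)/(j+2)`, `q = (j+d-2+e)/(j+d-2)` and
`h_i(a) = ∑_α ξ_α ( x_α i * ψ_α^(j+1)(a) - a_i * (p ψ_α^(j+2)(a) + q ψ_α^j(a)) )`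
`0 ≤ ∑_i kform (j+1) h_i h_i` and the right hand side is, by `Sys.repro`, `Sys.step` and `kap_mul_X`
(for the term with `<a,b> kap_(j+1)(<a,b>)`), equal to the form in the statement:
 term `<x,y>`: `<x,y> N^(j+1)`; the two mixed terms: `- au(j+2) p N^(j+2) - ad(j) q N^j` each;
 last term: `+ (j+2)/(2j+d+2) p^2 N^(j+2) + (j+d-2)/(2j+d-2) q^2 N^j`  (the cross terms
 `∫ ψ_α^(j+2) ψ_β^j` vanish, `orth`).
-/

set_option autoImplicit false

open MeasureTheory Set Metric Polynomial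
open scoped RealInnerProductSpace

namespace Pool.Agent.Helper84.KLS

open Pool.Agent.Helper47.KP

namespace K6

lemma inner_eq_sum {d : ℕ} (x y : EE d) : ⟪x, y⟫ = ∑ i, x i * y i := by
  rw [PiLp.inner_apply]
  refine Finset.sum_congr rfl fun i _ => ?_
  simp [mul_comm]

/-- the kernel on `S × S` -/
noncomputable def KK (d k : ℕ) (p : Sph d × Sph d) : ℝ := (kap d k).eval ⟪(p.1 : EE d), (p.2 : EE d)⟫

lemma continuous_KK (d k : ℕ) : Continuous (KK d k) := (kap d k).continuous.comp continuous_inner2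

/-- the bilinear form -/
noncomputable def B2 (d k : ℕ) (f g : Sph d → ℝ) : ℝ :=
  ∫ p : Sph d × Sph d, KK d k p * (f p.1 * g p.2) ∂((sig d).prod (sig d))

variable {d : ℕ} [NeZero d]

lemma cont2 (k : ℕ) {f g : Sph d → ℝ} (hf : Continuous f) (hg : Continuous g) :
    Continuous fun p : Sph d × Sph d => KK d k p * (f p.1 * g p.2) :=
  (continuous_KK d k).mul ((hf.comp continuous_fst).mul (hg.comp continuous_snd))

lemma int2 (k : ℕ) {f g : Sph d → ℝ} (hf : Continuous f) (hg : Continuous g) :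
    Integrable (fun p : Sph d × Sph d => KK d k p * (f p.1 * g p.2)) ((sig d).prod (sig d)) :=
  integrable_prod_of_continuous (cont2 k hf hg)

lemma B2_left (k : ℕ) {f g : Sph d → ℝ} (hf : Continuous f) (hg : Continuous g) :
    B2 d k f g = ∫ a : Sph d, f a * ∫ b : Sph d, (kap d k).eval ⟪(a : EE d), (b : EE d)⟫ * g b
      ∂(sig d) ∂(sig d) := by
  unfold B2
  rw [integral_prod _ (int2 k hf hg)]
  congr 1; funext a
  rw [← integral_const_mul]
  congr 1; funext b
  simp only [KK]; ring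

lemma B2_right (k : ℕ) {f g : Sph d → ℝ} (hf : Continuous f) (hg : Continuous g) :
    B2 d k f g = ∫ b : Sph d, g b * ∫ a : Sph d, (kap d k).eval ⟪(b : EE d), (a : EE d)⟫ * f a
      ∂(sig d) ∂(sig d) := by
  unfold B2
  rw [integral_prod_symm _ (int2 k hf hg)]
  congr 1; funext b
  rw [← integral_const_mul]
  congr 1; funext a
  simp only [KK]; rw [real_inner_comm]; ring

lemma B2_nonneg (hd : 3 ≤ d) (k : ℕ) {f : Sph d → ℝ} (hf : Continuous f) : 0 ≤ B2 d k f f := by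
  have h := kform_nonneg hd k hf
  unfold B2
  rw [integral_prod _ (int2 k hf hf)]
  exact h

variable {e : ℕ} {ι : Type} {x : ι → Sph d} {ψ : ι → ℕ → Sph d → ℝ}

/-- the combination of the neighbouring levels -/
noncomputable def vv (ψ : ι → ℕ → Sph d → ℝ) (j : ℕ) (p q : ℝ) (α : ι) (a : Sph d) : ℝ :=
  p * ψ α (j + 2) a + q * ψ α j a

lemma continuous_vv (hS : Sys d e x ψ) (j : ℕ) (p q : ℝ) (α : ι) : Continuous (vv ψ j p q α) :=
  ((hS.cont α (j + 2)).const_mul p).add ((hS.cont α j).const_mul q)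

lemma NN_symm (ψ : ι → ℕ → Sph d → ℝ) (k : ℕ) (α β : ι) : NN ψ k α β = NN ψ k β α := by
  unfold NN
  congr 1; funext a; ring

lemma int1 (hS : Sys d e x ψ) (i k : ℕ) (α β : ι) :
    Integrable (fun a : Sph d => ψ α i a * ψ β k a) (sig d) :=
  integrable_of_continuous ((hS.cont α i).mul (hS.cont β k))

/-- `∫ v_β u_α` for two combinations of levels `j + 2` and `j` -/
lemma int_vv (hd : 3 ≤ d) (hS : Sys d e x ψ) (j : ℕ) (p q r s : ℝ) (α β : ι) :
    ∫ a : Sph d, vv ψ j p q β a * vv ψ j r s α a ∂(sig d) =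
      p * r * NN ψ (j + 2) α β + q * s * NN ψ j α β := by
  have h1 : ∀ a : Sph d, vv ψ j p q β a * vv ψ j r s α a =
      p * r * (ψ α (j + 2) a * ψ β (j + 2) a) + q * s * (ψ α j a * ψ β j a) +
        (p * s * (ψ α j a * ψ β (j + 2) a) + q * r * (ψ α (j + 2) a * ψ β j a)) := by
    intro a; unfold vv; ring
  simp only [h1]
  rw [integral_add, integral_add, integral_add, integral_const_mul, integral_const_mul,
    integral_const_mul, integral_const_mul, hS.orth hd (show j ≠ j + 2 by omega) α β,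
    hS.orth hd (show j + 2 ≠ j by omega) α β]
  · unfold NN; ring
  · exact (int1 hS _ _ α β).const_mul _
  · exact (int1 hS _ _ α β).const_mul _
  · exact (int1 hS _ _ α β).const_mul _
  · exact (int1 hS _ _ α β).const_mul _
  · exact ((int1 hS _ _ α β).const_mul _).add ((int1 hS _ _ α β).const_mul _)
  · exact ((int1 hS _ _ α β).const_mul _).add ((int1 hS _ _ α β).const_mul _)

/-- `T_k v` for the combination `v` -/
lemma repro_vv (hS : Sys d e x ψ) (j k : ℕ) (p q : ℝ) (α : ι) (a : Sph d) :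
    ∫ b : Sph d, (kap d k).eval ⟪(a : EE d), (b : EE d)⟫ * vv ψ j p q α b ∂(sig d) =
      vv ψ j (if k = j + 2 then p else 0) (if k = j then q else 0) α a := by
  have h1 : ∀ b : Sph d, (kap d k).eval ⟪(a : EE d), (b : EE d)⟫ * vv ψ j p q α b =
      p * ((kap d k).eval ⟪(a : EE d), (b : EE d)⟫ * ψ α (j + 2) b) +
      q * ((kap d k).eval ⟪(a : EE d), (b : EE d)⟫ * ψ α j b) := by
    intro b; unfold vv; ring
  have hc : ∀ l, Integrable (fun b : Sph d => (kap d k).eval ⟪(a : EE d), (b : EE d)⟫ * ψ α l b)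
      (sig d) := fun l => integrable_of_continuous ((continuous_eval _ _).mul (hS.cont α l))
  simp only [h1]
  rw [integral_add ((hc _).const_mul _) ((hc _).const_mul _), integral_const_mul,
    integral_const_mul, hS.repro, hS.repro]
  unfold vv
  split_ifs <;> ring

/-- term 1 -/
lemma term1 (hS : Sys d e x ψ) (j : ℕ) (α β : ι) :
    B2 d j (ψ α j) (ψ β j) = NN ψ j α β := by
  rw [B2_left j (hS.cont α j) (hS.cont β j)]
  unfold NN
  congr 1; funext a
  rw [hS.repro, if_pos rfl]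

lemma cont_in (y : EE d) {f : Sph d → ℝ} (hf : Continuous f) :
    Continuous fun b : Sph d => ⟪y, (b : EE d)⟫ * f b := (continuous_inner_S y).mul hf

lemma step_eq (hS : Sys d e x ψ) (j : ℕ) (α : ι) (a : Sph d) :
    ⟪(x α : EE d), (a : EE d)⟫ * ψ α (j + 1) a = vv ψ j (au d e (j + 2)) (ad d e j) α a :=
  hS.step α j a

/-- term 2 -/
lemma term2 (hd : 3 ≤ d) (hS : Sys d e x ψ) (j : ℕ) (p q : ℝ) (α β : ι) :
    B2 d (j + 1) (ψ α (j + 1)) (fun b => ⟪(x α : EE d), (b : EE d)⟫ * vv ψ j p q β b) =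
      p * au d e (j + 2) * NN ψ (j + 2) α β + q * ad d e j * NN ψ j α β := by
  rw [B2_right _ (hS.cont α (j + 1)) (cont_in _ (continuous_vv hS j p q β)),
    ← int_vv hd hS j p q _ _ α β]
  congr 1; funext b
  rw [hS.repro, if_pos rfl, ← step_eq hS]
  ring

/-- term 3 -/
lemma term3 (hd : 3 ≤ d) (hS : Sys d e x ψ) (j : ℕ) (p q : ℝ) (α β : ι) :
    B2 d (j + 1) (fun b => ⟪(x β : EE d), (b : EE d)⟫ * vv ψ j p q α b) (ψ β (j + 1)) =
      p * au d e (j + 2) * NN ψ (j + 2) α β + q * ad d e j * NN ψ j α β := by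
  rw [B2_left _ (cont_in _ (continuous_vv hS j p q α)) (hS.cont β (j + 1)),
    NN_symm ψ (j + 2), NN_symm ψ j, ← int_vv hd hS j p q _ _ β α]
  congr 1; funext b
  rw [hS.repro, if_pos rfl, ← step_eq hS]
  ring

/-- term 4, one level -/
lemma term4 (hd : 3 ≤ d) (hS : Sys d e x ψ) (j k : ℕ) (p q : ℝ) (α β : ι) :
    B2 d k (vv ψ j p q α) (vv ψ j p q β) =
      p * (if k = j + 2 then p else 0) * NN ψ (j + 2) α β +
        q * (if k = j then q else 0) * NN ψ j α β := by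
  rw [B2_left _ (continuous_vv hS j p q α) (continuous_vv hS j p q β), NN_symm ψ (j + 2),
    NN_symm ψ j, ← int_vv hd hS j p q _ _ β α]
  congr 1; funext a
  rw [repro_vv hS]

lemma KK_mul (hd : 3 ≤ d) (j : ℕ) (p : Sph d × Sph d) :
    KK d (j + 1) p * ⟪(p.1 : EE d), (p.2 : EE d)⟫ = ((j : ℝ) + 2) / (2 * j + d + 2) * KK d (j + 2) p +
      ((j : ℝ) + d - 2) / (2 * j + d - 2) * KK d j p := by
  have h := congrArg (fun P => P.eval ⟪(p.1 : EE d), (p.2 : EE d)⟫) (kap_mul_X (d := d) hd j)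
  simp only [eval_mul, eval_X, eval_add, eval_C] at h
  unfold KK
  rw [mul_comm]
  exact h

lemma five {Ω : Type*} [MeasurableSpace Ω] {μ : Measure Ω} {f1 f2 f3 f4 f5 : Ω → ℝ}
    (h1 : Integrable f1 μ) (h2 : Integrable f2 μ) (h3 : Integrable f3 μ) (h4 : Integrable f4 μ)
    (h5 : Integrable f5 μ) (c1 c4 c5 : ℝ) :
    ∫ w, (c1 * f1 w - f2 w - f3 w) + (c4 * f4 w + c5 * f5 w) ∂μ =
      (c1 * ∫ w, f1 w ∂μ) - (∫ w, f2 w ∂μ) - (∫ w, f3 w ∂μ) +
        ((c4 * ∫ w, f4 w ∂μ) + (c5 * ∫ w, f5 w ∂μ)) := by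
  have g1 : Integrable (fun w => c1 * f1 w) μ := h1.const_mul _
  have g12 : Integrable (fun w => c1 * f1 w - f2 w) μ := g1.sub h2
  have g123 : Integrable (fun w => c1 * f1 w - f2 w - f3 w) μ := g12.sub h3
  have g4 : Integrable (fun w => c4 * f4 w) μ := h4.const_mul _
  have g5 : Integrable (fun w => c5 * f5 w) μ := h5.const_mul _
  have g45 : Integrable (fun w => c4 * f4 w + c5 * f5 w) μ := g4.add g5
  rw [integral_add g123 g45, integral_sub g12 h3, integral_sub g1 h2, integral_add g4 g5,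
    integral_const_mul, integral_const_mul, integral_const_mul]

/-- all terms together for one pair `α, β` -/
lemma pair (hd : 3 ≤ d) (hS : Sys d e x ψ) (j : ℕ) (p q : ℝ) (α β : ι) :
    ∫ w : Sph d × Sph d, KK d (j + 1) w * (⟪(x α : EE d), (x β : EE d)⟫ *
        (ψ α (j + 1) w.1 * ψ β (j + 1) w.2) -
        ⟪(x α : EE d), (w.2 : EE d)⟫ * (ψ α (j + 1) w.1 * vv ψ j p q β w.2) -
        ⟪(x β : EE d), (w.1 : EE d)⟫ * (vv ψ j p q α w.1 * ψ β (j + 1) w.2) +
        ⟪(w.1 : EE d), (w.2 : EE d)⟫ * (vv ψ j p q α w.1 * vv ψ j p q β w.2)) ∂((sig d).prod (sig d)) =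
      ⟪(x α : EE d), (x β : EE d)⟫ * NN ψ (j + 1) α β -
        2 * (p * au d e (j + 2) * NN ψ (j + 2) α β + q * ad d e j * NN ψ j α β) +
        (((j : ℝ) + 2) / (2 * j + d + 2) * (p * p * NN ψ (j + 2) α β) +
          ((j : ℝ) + d - 2) / (2 * j + d - 2) * (q * q * NN ψ j α β)) := by
  have hv := continuous_vv hS j p q
  have i1 := int2 (j + 1) (hS.cont α (j + 1)) (hS.cont β (j + 1))
  have i2 := int2 (j + 1) (hS.cont α (j + 1)) (cont_in (x α : EE d) (hv β))
  have i3 := int2 (j + 1) (cont_in (x β : EE d) (hv α)) (hS.cont β (j + 1))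
  have i4 := int2 (j + 2) (hv α) (hv β)
  have i5 := int2 j (hv α) (hv β)
  have hpt : ∀ w : Sph d × Sph d, KK d (j + 1) w * (⟪(x α : EE d), (x β : EE d)⟫ *
        (ψ α (j + 1) w.1 * ψ β (j + 1) w.2) -
        ⟪(x α : EE d), (w.2 : EE d)⟫ * (ψ α (j + 1) w.1 * vv ψ j p q β w.2) -
        ⟪(x β : EE d), (w.1 : EE d)⟫ * (vv ψ j p q α w.1 * ψ β (j + 1) w.2) +
        ⟪(w.1 : EE d), (w.2 : EE d)⟫ * (vv ψ j p q α w.1 * vv ψ j p q β w.2)) =
      (⟪(x α : EE d), (x β : EE d)⟫ * (KK d (j + 1) w * (ψ α (j + 1) w.1 * ψ β (j + 1) w.2)) -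
        KK d (j + 1) w * (ψ α (j + 1) w.1 * (⟪(x α : EE d), (w.2 : EE d)⟫ * vv ψ j p q β w.2)) -
        KK d (j + 1) w * ((⟪(x β : EE d), (w.1 : EE d)⟫ * vv ψ j p q α w.1) * ψ β (j + 1) w.2)) +
      (((j : ℝ) + 2) / (2 * j + d + 2) * (KK d (j + 2) w * (vv ψ j p q α w.1 * vv ψ j p q β w.2)) +
        ((j : ℝ) + d - 2) / (2 * j + d - 2) *
          (KK d j w * (vv ψ j p q α w.1 * vv ψ j p q β w.2))) := by
    intro w
    have h := KK_mul hd j w
    linear_combination (vv ψ j p q α w.1 * vv ψ j p q β w.2) * h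
  simp only [hpt]
  rw [five i1 i2 i3 i4 i5]
  have t1 := term1 hS (j + 1) α β
  have t2 := term2 hd hS j p q α β
  have t3 := term3 hd hS j p q α β
  have t4 := term4 hd hS j (j + 2) p q α β
  have t5 := term4 hd hS j j p q α β
  rw [if_pos rfl, if_neg (by omega)] at t4
  rw [if_neg (by omega), if_pos rfl] at t5
  unfold B2 at t1 t2 t3 t4 t5
  rw [t1, t2, t3, t4, t5]
  ring

end K6

open K6

theorem M_psd {d : ℕ} [NeZero d] (hd : 3 ≤ d) {e : ℕ} {ι : Type} {x : ι → Sph d}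
    {ψ : ι → ℕ → Sph d → ℝ} (hS : Sys d e x ψ) (j : ℕ) (s : Finset ι) (ξ : ι → ℝ) :
    0 ≤ ∑ α ∈ s, ∑ β ∈ s, ξ α * ξ β * (⟪(x α : EE d), (x β : EE d)⟫ * NN ψ (j + 1) α β -
      up d e (j + 2) * NN ψ (j + 2) α β - dn d e j * NN ψ j α β) := by
  set p : ℝ := ((j : ℝ) + 2 - e) / (j + 2) with hp
  set q : ℝ := ((j : ℝ) + d - 2 + e) / (j + d - 2) with hq
  have hj0 : (0 : ℝ) ≤ j := Nat.cast_nonneg j
  have hd3 : (3 : ℝ) ≤ d := by exact_mod_cast hd
  have n1 : (j : ℝ) + 2 ≠ 0 := by positivity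
  have n2 : (j : ℝ) + d - 2 ≠ 0 := by
    have : (0 : ℝ) < (j : ℝ) + d - 2 := by linarith
    exact this.ne'
  have n3 : 2 * (j : ℝ) + d + 2 ≠ 0 := by positivity
  have n4 : 2 * (j : ℝ) + d - 2 ≠ 0 := by
    have : (0 : ℝ) < 2 * (j : ℝ) + d - 2 := by linarith
    exact this.ne'
  have hv := continuous_vv hS j p q
  -- the functions `h_i`
  set h : Fin d → Sph d → ℝ := fun i a => ∑ α ∈ s, ξ α * ((x α : EE d) i * ψ α (j + 1) a -
    (a : EE d) i * vv ψ j p q α a) with hh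
  have hcoord : ∀ i : Fin d, Continuous fun a : Sph d => (a : EE d) i := by
    intro i
    exact ((EuclideanSpace.proj (𝕜 := ℝ) i).continuous).comp continuous_subtype_val
  have hhc : ∀ i, Continuous (h i) := by
    intro i
    refine continuous_finsetSum _ fun α _ => ?_
    exact (((hS.cont α (j + 1)).const_mul _).sub ((hcoord i).mul (hv α))).const_mul _
  have h0 : 0 ≤ ∑ i, B2 d (j + 1) (h i) (h i) := Finset.sum_nonneg fun i _ => B2_nonneg hd _ (hhc i)
  have h1 : ∑ i, B2 d (j + 1) (h i) (h i) = ∑ α ∈ s, ∑ β ∈ s, ξ α * ξ β *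
      (⟪(x α : EE d), (x β : EE d)⟫ * NN ψ (j + 1) α β -
        2 * (p * au d e (j + 2) * NN ψ (j + 2) α β + q * ad d e j * NN ψ j α β) +
        (((j : ℝ) + 2) / (2 * j + d + 2) * (p * p * NN ψ (j + 2) α β) +
          ((j : ℝ) + d - 2) / (2 * j + d - 2) * (q * q * NN ψ j α β))) := by
    unfold B2
    rw [← integral_finsetSum _ fun i _ => int2 (j + 1) (hhc i) (hhc i)]
    have hpt : ∀ w : Sph d × Sph d, ∑ i, KK d (j + 1) w * (h i w.1 * h i w.2) =
        ∑ α ∈ s, ∑ β ∈ s, ξ α * ξ β * (KK d (j + 1) w * (⟪(x α : EE d), (x β : EE d)⟫ *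
        (ψ α (j + 1) w.1 * ψ β (j + 1) w.2) -
        ⟪(x α : EE d), (w.2 : EE d)⟫ * (ψ α (j + 1) w.1 * vv ψ j p q β w.2) -
        ⟪(x β : EE d), (w.1 : EE d)⟫ * (vv ψ j p q α w.1 * ψ β (j + 1) w.2) +
        ⟪(w.1 : EE d), (w.2 : EE d)⟫ * (vv ψ j p q α w.1 * vv ψ j p q β w.2))) := by
      intro w
      have e1 : ∀ i, KK d (j + 1) w * (h i w.1 * h i w.2) = ∑ α ∈ s, ∑ β ∈ s,
          ξ α * ξ β * KK d (j + 1) w * (((x α : EE d) i * (x β : EE d) i) *
            (ψ α (j + 1) w.1 * ψ β (j + 1) w.2) -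
          ((x α : EE d) i * (w.2 : EE d) i) * (ψ α (j + 1) w.1 * vv ψ j p q β w.2) -
          ((x β : EE d) i * (w.1 : EE d) i) * (vv ψ j p q α w.1 * ψ β (j + 1) w.2) +
          ((w.1 : EE d) i * (w.2 : EE d) i) * (vv ψ j p q α w.1 * vv ψ j p q β w.2)) := by
        intro i
        simp only [hh]
        rw [Finset.sum_mul_sum, Finset.mul_sum]
        refine Finset.sum_congr rfl fun α _ => ?_
        rw [Finset.mul_sum]
        refine Finset.sum_congr rfl fun β _ => ?_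
        ring
      simp only [e1]
      rw [Finset.sum_comm]
      refine Finset.sum_congr rfl fun α _ => ?_
      rw [Finset.sum_comm]
      refine Finset.sum_congr rfl fun β _ => ?_
      rw [inner_eq_sum, inner_eq_sum, inner_eq_sum, inner_eq_sum, ← Finset.mul_sum,
        Finset.sum_add_distrib, Finset.sum_sub_distrib, Finset.sum_sub_distrib,
        ← Finset.sum_mul, ← Finset.sum_mul, ← Finset.sum_mul, ← Finset.sum_mul]
      ring
    simp only [hpt]
    have hin : ∀ α β : ι, Integrable (fun w : Sph d × Sph d =>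
        ξ α * ξ β * (KK d (j + 1) w * (⟪(x α : EE d), (x β : EE d)⟫ *
        (ψ α (j + 1) w.1 * ψ β (j + 1) w.2) -
        ⟪(x α : EE d), (w.2 : EE d)⟫ * (ψ α (j + 1) w.1 * vv ψ j p q β w.2) -
        ⟪(x β : EE d), (w.1 : EE d)⟫ * (vv ψ j p q α w.1 * ψ β (j + 1) w.2) +
        ⟪(w.1 : EE d), (w.2 : EE d)⟫ * (vv ψ j p q α w.1 * vv ψ j p q β w.2))))
        ((sig d).prod (sig d)) := by
      intro α β
      apply integrable_prod_of_continuous
      have c1 := fun γ => (hS.cont γ (j + 1)).comp (continuous_fst (X := Sph d) (Y := Sph d))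
      have c2 := fun γ => (hS.cont γ (j + 1)).comp (continuous_snd (X := Sph d) (Y := Sph d))
      have c3 := fun γ => (hv γ).comp (continuous_fst (X := Sph d) (Y := Sph d))
      have c4 := fun γ => (hv γ).comp (continuous_snd (X := Sph d) (Y := Sph d))
      have c5 := fun y : EE d => (continuous_inner_S y).comp (continuous_fst (X := Sph d) (Y := Sph d))
      have c6 := fun y : EE d => (continuous_inner_S y).comp (continuous_snd (X := Sph d) (Y := Sph d))
      exact (((continuous_KK d (j + 1)).mul (((((c1 α).mul (c2 β)).const_mul _).sub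
        ((c6 _).mul ((c1 α).mul (c4 β)))).sub ((c5 _).mul ((c3 α).mul (c2 β))) |>.add
        (continuous_inner2.mul ((c3 α).mul (c4 β))))).const_mul _)
    rw [integral_finsetSum _ fun α _ => integrable_finsetSum _ fun β _ => hin α β]
    refine Finset.sum_congr rfl fun α _ => ?_
    rw [integral_finsetSum _ fun β _ => hin α β]
    refine Finset.sum_congr rfl fun β _ => ?_
    rw [integral_const_mul, pair hd hS j p q α β]
  rw [h1] at h0
  refine h0.trans (le_of_eq ?_)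
  refine Finset.sum_congr rfl fun α _ => Finset.sum_congr rfl fun β _ => ?_
  congr 1
  have k1 : p * au d e (j + 2) = up d e (j + 2) := by
    rw [hp]; unfold au up
    have e1 : 2 * (((j + 2 : ℕ) : ℝ)) + d - 2 = 2 * (j : ℝ) + d + 2 := by push_cast; ring
    rw [e1]; push_cast
    field_simp
  have k2 : q * ad d e j = dn d e j := by
    rw [hq]; unfold ad dn
    field_simp
  have k3 : ((j : ℝ) + 2) / (2 * j + d + 2) * (p * p) = up d e (j + 2) := by
    rw [hp]; unfold up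
    have e1 : 2 * (((j + 2 : ℕ) : ℝ)) + d - 2 = 2 * (j : ℝ) + d + 2 := by push_cast; ring
    rw [e1]; push_cast
    field_simp
  have k4 : ((j : ℝ) + d - 2) / (2 * j + d - 2) * (q * q) = dn d e j := by
    rw [hq]; unfold dn
    field_simp
  linear_combination (-2 * NN ψ (j + 2) α β) * k1 + (-2 * NN ψ j α β) * k2 +
    NN ψ (j + 2) α β * k3 + NN ψ j α β * k4

end Pool.Agent.Helper84.KLS
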