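import Pool.Agent.Helper84.KLS.K6

/-!
Block K7: the main inequality. `∑_(αβ) N^k_(αβ) B_(αβ) ≥ 0` for every matrix `B` with nonnegative
quadratic form, because `N^k_(αβ) = ∫ ψ_α^k(z) ψ_β^k(z) dz`: use `ξ_α = ψ_α^k(z)` and integrate.
Apply it to `B = M^(j+1)` (from `M_psd`) and to `B = N^l`. With `Nc = ∑_(k<m) c_k N^k`:
`0 ≤ ∑_(αβ) Nc_(αβ) * ∑_j c_(j+1) M^(j+1)_(αβ)`
`  = ∑_(αβ) Nc_(αβ) ( <x_α,x_β> Nc_(αβ) - ∑_k (up k * c (k-1) + dn k * c (k+1)) N^k_(αβ) )`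
and `up k * c (k-1) + dn k * c (k+1) ≥ lam * c k`.
-/

set_option autoImplicit false

open MeasureTheory Set Metric Polynomial
open scoped RealInnerProductSpace

namespace Pool.Agent.Helper84.KLS

open Pool.Agent.Helper47.KP

private lemma h97_sum {d : ℕ} [NeZero d] {e : ℕ} {ι : Type} {x : ι → Sph d}
    {ψ : ι → ℕ → Sph d → ℝ} (hS : Sys d e x ψ) (k : ℕ) (s : Finset ι) (B : ι → ι → ℝ) :
    ∑ α ∈ s, ∑ β ∈ s, NN ψ k α β * B α β =
      ∫ a : Sph d, ∑ α ∈ s, ∑ β ∈ s, ψ α k a * ψ β k a * B α β ∂(sig d) := by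
  have hin : ∀ α β : ι, Integrable (fun a : Sph d => ψ α k a * ψ β k a * B α β) (sig d) :=
    fun α β => (K6.int1 hS k k α β).mul_const _
  rw [integral_finsetSum _ fun α _ => integrable_finsetSum _ fun β _ => hin α β]
  refine Finset.sum_congr rfl fun α _ => ?_
  rw [integral_finsetSum _ fun β _ => hin α β]
  refine Finset.sum_congr rfl fun β _ => ?_
  rw [integral_mul_const]
  rfl

private lemma h97_pos {d : ℕ} [NeZero d] {e : ℕ} {ι : Type} {x : ι → Sph d}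
    {ψ : ι → ℕ → Sph d → ℝ} (hS : Sys d e x ψ) (k : ℕ) (s : Finset ι) (B : ι → ι → ℝ)
    (hB : ∀ ξ : ι → ℝ, 0 ≤ ∑ α ∈ s, ∑ β ∈ s, ξ α * ξ β * B α β) :
    0 ≤ ∑ α ∈ s, ∑ β ∈ s, NN ψ k α β * B α β := by
  rw [h97_sum hS]
  exact integral_nonneg fun a => hB fun α => ψ α k a

private lemma h97_gram {d : ℕ} [NeZero d] {e : ℕ} {ι : Type} {x : ι → Sph d}
    {ψ : ι → ℕ → Sph d → ℝ} (hS : Sys d e x ψ) (k : ℕ) (s : Finset ι) (ξ : ι → ℝ) :
    0 ≤ ∑ α ∈ s, ∑ β ∈ s, ξ α * ξ β * NN ψ k α β := by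
  have h1 : ∑ α ∈ s, ∑ β ∈ s, ξ α * ξ β * NN ψ k α β =
      ∑ α ∈ s, ∑ β ∈ s, NN ψ k α β * (ξ α * ξ β) :=
    Finset.sum_congr rfl fun α _ => Finset.sum_congr rfl fun β _ => mul_comm _ _
  rw [h1, h97_sum hS k s fun α β => ξ α * ξ β]
  refine integral_nonneg fun a => ?_
  have h2 : ∑ α ∈ s, ∑ β ∈ s, ψ α k a * ψ β k a * (ξ α * ξ β) = (∑ α ∈ s, ξ α * ψ α k a) ^ 2 := by
    rw [sq, Finset.sum_mul_sum]
    exact Finset.sum_congr rfl fun α _ => Finset.sum_congr rfl fun β _ => by ring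
  change 0 ≤ ∑ α ∈ s, ∑ β ∈ s, ψ α k a * ψ β k a * (ξ α * ξ β)
  rw [h2]
  exact sq_nonneg _

/-- the combination of the levels -/
private lemma h97_comb (c u w N : ℕ → ℝ) (t lam : ℝ) (m : ℕ) (hc0 : c 0 = 0)
    (hcm : ∀ k, m ≤ k → c k = 0) :
    ∑ j ∈ Finset.range m, c (j + 1) * (t * N (j + 1) - u (j + 2) * N (j + 2) - w j * N j) =
      (t - lam) * (∑ k ∈ Finset.range m, c k * N k) -
        ∑ k ∈ Finset.range (m + 2), (u k * c (k - 1) + w k * c (k + 1) - lam * c k) * N k := by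
  have e1 : ∑ k ∈ Finset.range m, c k * N k = ∑ j ∈ Finset.range m, c (j + 1) * N (j + 1) := by
    have h1 := Finset.sum_range_succ' (fun k => c k * N k) m
    have h2 := Finset.sum_range_succ (fun k => c k * N k) m
    rw [h2, hcm m le_rfl, hc0] at h1
    linarith
  have e2 : ∑ k ∈ Finset.range (m + 2), u k * c (k - 1) * N k =
      ∑ j ∈ Finset.range m, c (j + 1) * u (j + 2) * N (j + 2) := by
    rw [Finset.sum_range_succ', Finset.sum_range_succ']
    simp only [Nat.zero_sub, zero_add, Nat.sub_self, hc0, mul_zero, zero_mul, add_zero]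
    refine Finset.sum_congr rfl fun j _ => ?_
    have : j + 1 + 1 - 1 = j + 1 := by omega
    rw [this]
    ring
  have e3 : ∑ k ∈ Finset.range (m + 2), w k * c (k + 1) * N k =
      ∑ j ∈ Finset.range m, c (j + 1) * w j * N j := by
    rw [Finset.sum_range_succ, Finset.sum_range_succ, hcm (m + 1) (by omega),
      hcm (m + 1 + 1) (by omega)]
    simp only [mul_zero, zero_mul, add_zero]
    exact Finset.sum_congr rfl fun j _ => by ring
  have e4 : ∑ k ∈ Finset.range (m + 2), lam * c k * N k = lam * ∑ k ∈ Finset.range m, c k * N k := by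
    rw [Finset.sum_range_succ, Finset.sum_range_succ, hcm m le_rfl, hcm (m + 1) (by omega),
      Finset.mul_sum]
    simp only [mul_zero, zero_mul, add_zero]
    exact Finset.sum_congr rfl fun j _ => by ring
  have e5 : ∑ k ∈ Finset.range (m + 2), (u k * c (k - 1) + w k * c (k + 1) - lam * c k) * N k =
      ∑ k ∈ Finset.range (m + 2), u k * c (k - 1) * N k +
        ∑ k ∈ Finset.range (m + 2), w k * c (k + 1) * N k -
        ∑ k ∈ Finset.range (m + 2), lam * c k * N k := by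
    rw [← Finset.sum_add_distrib, ← Finset.sum_sub_distrib]
    exact Finset.sum_congr rfl fun j _ => by ring
  have e6 : ∑ j ∈ Finset.range m, c (j + 1) * (t * N (j + 1) - u (j + 2) * N (j + 2) - w j * N j) =
      t * ∑ j ∈ Finset.range m, c (j + 1) * N (j + 1) -
        ∑ j ∈ Finset.range m, c (j + 1) * u (j + 2) * N (j + 2) -
        ∑ j ∈ Finset.range m, c (j + 1) * w j * N j := by
    rw [Finset.mul_sum, ← Finset.sum_sub_distrib, ← Finset.sum_sub_distrib]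
    exact Finset.sum_congr rfl fun j _ => by ring
  rw [e5, e2, e3, e4, e6, ← e1]
  ring

theorem main_ineq {d : ℕ} [NeZero d] (hd : 3 ≤ d) {e : ℕ} {ι : Type} {x : ι → Sph d}
    {ψ : ι → ℕ → Sph d → ℝ} (hS : Sys d e x ψ) (s : Finset ι) (c : ℕ → ℝ) (m : ℕ)
    (hc : ∀ k, 0 ≤ c k) (hc0 : c 0 = 0) (hcm : ∀ k, m ≤ k → c k = 0) (lam : ℝ)
    (hlam : ∀ k, lam * c k ≤ up d e k * c (k - 1) + dn d e k * c (k + 1)) :
    0 ≤ ∑ α ∈ s, ∑ β ∈ s, (⟪(x α : EE d), (x β : EE d)⟫ - lam) *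
      (∑ k ∈ Finset.range m, c k * NN ψ k α β) ^ 2 := by
  obtain ⟨r, hr⟩ : ∃ r : ℕ → ℝ, ∀ k, r k = up d e k * c (k - 1) + dn d e k * c (k + 1) - lam * c k :=
    ⟨_, fun _ => rfl⟩
  have hr0 : ∀ k, 0 ≤ r k := fun k => by rw [hr]; linarith [hlam k]
  have hpt : ∀ α β : ι, (⟪(x α : EE d), (x β : EE d)⟫ - lam) *
      (∑ k ∈ Finset.range m, c k * NN ψ k α β) ^ 2 =
      (∑ l ∈ Finset.range m, ∑ j ∈ Finset.range m, (c l * c (j + 1)) * (NN ψ l α β *
        (⟪(x α : EE d), (x β : EE d)⟫ * NN ψ (j + 1) α β -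
          up d e (j + 2) * NN ψ (j + 2) α β - dn d e j * NN ψ j α β))) +
      ∑ l ∈ Finset.range m, ∑ k ∈ Finset.range (m + 2), (c l * r k) * (NN ψ l α β * NN ψ k α β) := by
    intro α β
    have h1 := h97_comb c (up d e) (dn d e) (fun k => NN ψ k α β)
      ⟪(x α : EE d), (x β : EE d)⟫ lam m hc0 hcm
    have h2 : (∑ l ∈ Finset.range m, ∑ j ∈ Finset.range m, (c l * c (j + 1)) * (NN ψ l α β *
        (⟪(x α : EE d), (x β : EE d)⟫ * NN ψ (j + 1) α β -
          up d e (j + 2) * NN ψ (j + 2) α β - dn d e j * NN ψ j α β))) =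
        (∑ l ∈ Finset.range m, c l * NN ψ l α β) * ∑ j ∈ Finset.range m, c (j + 1) *
          (⟪(x α : EE d), (x β : EE d)⟫ * NN ψ (j + 1) α β -
          up d e (j + 2) * NN ψ (j + 2) α β - dn d e j * NN ψ j α β) := by
      rw [Finset.sum_mul_sum]
      exact Finset.sum_congr rfl fun l _ => Finset.sum_congr rfl fun j _ => by ring
    have h3 : (∑ l ∈ Finset.range m, ∑ k ∈ Finset.range (m + 2), (c l * r k) *
        (NN ψ l α β * NN ψ k α β)) = (∑ l ∈ Finset.range m, c l * NN ψ l α β) *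
          ∑ k ∈ Finset.range (m + 2), (up d e k * c (k - 1) + dn d e k * c (k + 1) - lam * c k) *
            NN ψ k α β := by
      rw [Finset.sum_mul_sum]
      exact Finset.sum_congr rfl fun l _ => Finset.sum_congr rfl fun k _ => by rw [hr]; ring
    rw [h2, h3, h1]
    ring
  simp only [hpt, Finset.sum_add_distrib]
  refine add_nonneg ?_ ?_
  · have h4 : ∑ α ∈ s, ∑ β ∈ s, ∑ l ∈ Finset.range m, ∑ j ∈ Finset.range m,
        (c l * c (j + 1)) * (NN ψ l α β * (⟪(x α : EE d), (x β : EE d)⟫ * NN ψ (j + 1) α β -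
          up d e (j + 2) * NN ψ (j + 2) α β - dn d e j * NN ψ j α β)) =
        ∑ l ∈ Finset.range m, ∑ j ∈ Finset.range m, (c l * c (j + 1)) * ∑ α ∈ s, ∑ β ∈ s,
          (NN ψ l α β * (⟪(x α : EE d), (x β : EE d)⟫ * NN ψ (j + 1) α β -
          up d e (j + 2) * NN ψ (j + 2) α β - dn d e j * NN ψ j α β)) := by
      simp only [Finset.mul_sum]
      calc _ = ∑ α ∈ s, ∑ l ∈ Finset.range m, ∑ β ∈ s, ∑ j ∈ Finset.range m, _ :=
            Finset.sum_congr rfl fun α _ => Finset.sum_comm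
        _ = ∑ l ∈ Finset.range m, ∑ α ∈ s, ∑ β ∈ s, ∑ j ∈ Finset.range m, _ := Finset.sum_comm
        _ = ∑ l ∈ Finset.range m, ∑ α ∈ s, ∑ j ∈ Finset.range m, ∑ β ∈ s, _ :=
            Finset.sum_congr rfl fun l _ => Finset.sum_congr rfl fun α _ => Finset.sum_comm
        _ = _ := Finset.sum_congr rfl fun l _ => Finset.sum_comm
    rw [h4]
    refine Finset.sum_nonneg fun l _ => Finset.sum_nonneg fun j _ =>
      mul_nonneg (mul_nonneg (hc l) (hc (j + 1))) ?_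
    exact h97_pos hS l s _ fun ξ => M_psd hd hS j s ξ
  · have h4 : ∑ α ∈ s, ∑ β ∈ s, ∑ l ∈ Finset.range m, ∑ k ∈ Finset.range (m + 2),
        (c l * r k) * (NN ψ l α β * NN ψ k α β) =
        ∑ l ∈ Finset.range m, ∑ k ∈ Finset.range (m + 2), (c l * r k) * ∑ α ∈ s, ∑ β ∈ s,
          (NN ψ l α β * NN ψ k α β) := by
      simp only [Finset.mul_sum]
      calc _ = ∑ α ∈ s, ∑ l ∈ Finset.range m, ∑ β ∈ s, ∑ k ∈ Finset.range (m + 2), _ :=
            Finset.sum_congr rfl fun α _ => Finset.sum_comm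
        _ = ∑ l ∈ Finset.range m, ∑ α ∈ s, ∑ β ∈ s, ∑ k ∈ Finset.range (m + 2), _ := Finset.sum_comm
        _ = ∑ l ∈ Finset.range m, ∑ α ∈ s, ∑ k ∈ Finset.range (m + 2), ∑ β ∈ s, _ :=
            Finset.sum_congr rfl fun l _ => Finset.sum_congr rfl fun α _ => Finset.sum_comm
        _ = _ := Finset.sum_congr rfl fun l _ => Finset.sum_comm
    rw [h4]
    refine Finset.sum_nonneg fun l _ => Finset.sum_nonneg fun k _ =>
      mul_nonneg (mul_nonneg (hc l) (hr0 k)) ?_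
    exact h97_pos hS l s _ fun ξ => h97_gram hS k s ξ

end Pool.Agent.Helper84.KLS
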