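import Pool.Agent.Helper84.KLS.K3a
import Pool.Agent.Helper84.KLS.K6a

/-!
Block K8: trace inequality `(tr Nc)^2 ≤ (∑_(k ∈ J) D_k) tr (Nc^2)`.
Cauchy-Schwarz in `L²(S × S)` for `T(a,b) = ∑_α f_α(a) f_α(b)`, `f_α = ∑_(k∈J) √(c_k) ψ_α^k`, and
`Θ(a,b) = ∑_(k∈J) kap_k(<a,b>)`: `∫∫ T² = ∑_(αβ) (∫ f_α f_β)² = ∑_(αβ) Nc²` (`Sys.orth`),
`∫∫ T Θ = ∑_α ∫ f_α² = ∑_α Nc_(αα)` (`Sys.repro`), `∫∫ Θ² = ∑_(k∈J) kap_k(1) = ∑_(k∈J) D_k`
(`repro_zero`, `PP_eval_one`). (Discriminant argument: `0 ≤ ∫∫ (T - r Θ)²` for all real `r`.)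
-/

set_option autoImplicit false

open MeasureTheory Set Metric Polynomial
open scoped RealInnerProductSpace

namespace Pool.Agent.Helper84.KLS

open Pool.Agent.Helper47.KP

theorem trace_ineq {d : ℕ} [NeZero d] (hd : 3 ≤ d) {e : ℕ} {ι : Type} {x : ι → Sph d}
    {ψ : ι → ℕ → Sph d → ℝ} (hS : Sys d e x ψ) (s : Finset ι) (c : ℕ → ℝ) (J : Finset ℕ)
    (hc : ∀ k, 0 ≤ c k) :
    (∑ α ∈ s, ∑ k ∈ J, c k * NN ψ k α α) ^ 2 ≤
      (∑ k ∈ J, (nrm d k)⁻¹) * ∑ α ∈ s, ∑ β ∈ s, (∑ k ∈ J, c k * NN ψ k α β) ^ 2 := by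
  classical
  obtain ⟨f, hf⟩ : ∃ f : ι → Sph d → ℝ, ∀ α a, f α a = ∑ k ∈ J, √(c k) * ψ α k a :=
    ⟨_, fun _ _ => rfl⟩
  have hfc : ∀ α, Continuous (f α) := by
    intro α
    have : f α = fun a => ∑ k ∈ J, √(c k) * ψ α k a := funext (hf α)
    rw [this]
    exact continuous_finsetSum _ fun k _ => continuous_const.mul (hS.cont α k)
  obtain ⟨N, hN⟩ : ∃ N : ι → ι → ℝ, ∀ α β, N α β = ∑ k ∈ J, c k * NN ψ k α β :=
    ⟨_, fun _ _ => rfl⟩
  -- the Gram matrix
  have hNf : ∀ α β, ∫ a, f α a * f β a ∂(sig d) = N α β := by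
    intro α β
    have h1 : ∀ a, f α a * f β a =
        ∑ i ∈ J, ∑ k ∈ J, (√(c i) * √(c k)) * (ψ α i a * ψ β k a) := by
      intro a
      rw [hf, hf, Finset.sum_mul_sum]
      exact Finset.sum_congr rfl fun i _ => Finset.sum_congr rfl fun k _ => by ring
    have hint : ∀ i k, Integrable (fun a => (√(c i) * √(c k)) * (ψ α i a * ψ β k a)) (sig d) :=
      fun i k => (integrable_of_continuous ((hS.cont α i).mul (hS.cont β k))).const_mul _
    rw [integral_congr_ae (Filter.Eventually.of_forall h1), hN,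
      integral_finsetSum _ fun i _ => integrable_finsetSum _ fun k _ => hint i k]
    refine Finset.sum_congr rfl fun i hi => ?_
    rw [integral_finsetSum _ fun k _ => hint i k, Finset.sum_eq_single i]
    · rw [integral_const_mul, Real.mul_self_sqrt (hc i)]
      rfl
    · intro k _ hk
      rw [integral_const_mul, hS.orth hd (Ne.symm hk), mul_zero]
    · intro h
      exact absurd hi h
  -- the kernel
  obtain ⟨Θ, hΘ⟩ : ∃ Θ : Sph d → Sph d → ℝ, ∀ a b,
      Θ a b = ∑ i ∈ J, (kap d i).eval ⟪(a : EE d), (b : EE d)⟫ := ⟨_, fun _ _ => rfl⟩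
  have hΘc : ∀ a, Continuous (Θ a) := by
    intro a
    have : Θ a = fun b : Sph d => ∑ i ∈ J, (kap d i).eval ⟪(a : EE d), (b : EE d)⟫ := funext (hΘ a)
    rw [this]
    exact continuous_finsetSum _ fun i _ => continuous_eval _ _
  have hfΘ : ∀ α a, ∫ b, f α b * Θ a b ∂(sig d) = f α a := by
    intro α a
    have h1 : ∀ b, f α b * Θ a b = ∑ k ∈ J, ∑ i ∈ J,
        √(c k) * ((kap d i).eval ⟪(a : EE d), (b : EE d)⟫ * ψ α k b) := by
      intro b
      rw [hf, hΘ, Finset.sum_mul_sum]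
      exact Finset.sum_congr rfl fun i _ => Finset.sum_congr rfl fun k _ => by ring
    have hint : ∀ i k, Integrable (fun b : Sph d =>
        √(c k) * ((kap d i).eval ⟪(a : EE d), (b : EE d)⟫ * ψ α k b)) (sig d) :=
      fun i k => (integrable_of_continuous ((continuous_eval _ _).mul (hS.cont α k))).const_mul _
    rw [integral_congr_ae (Filter.Eventually.of_forall h1), hf,
      integral_finsetSum _ fun k _ => integrable_finsetSum _ fun i _ => hint i k]
    refine Finset.sum_congr rfl fun k hk => ?_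
    rw [integral_finsetSum _ fun i _ => hint i k, Finset.sum_eq_single k]
    · rw [integral_const_mul, hS.repro, if_pos rfl]
    · intro i _ hi
      rw [integral_const_mul, hS.repro, if_neg hi, mul_zero]
    · intro h
      exact absurd hk h
  have hΘΘ : ∀ a, ∫ b, Θ a b * Θ a b ∂(sig d) = ∑ k ∈ J, (nrm d k)⁻¹ := by
    intro a
    have h1 : ∀ b, Θ a b * Θ a b = ∑ k ∈ J, ∑ i ∈ J,
        (kap d i).eval ⟪(a : EE d), (b : EE d)⟫ * (kap d k).eval ⟪(a : EE d), (b : EE d)⟫ := by
      intro b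
      rw [hΘ, Finset.sum_mul_sum]
      exact Finset.sum_congr rfl fun i _ => Finset.sum_congr rfl fun k _ => by ring
    have hint : ∀ i k, Integrable (fun b : Sph d =>
        (kap d i).eval ⟪(a : EE d), (b : EE d)⟫ * (kap d k).eval ⟪(a : EE d), (b : EE d)⟫) (sig d) :=
      fun i k => integrable_of_continuous ((continuous_eval _ _).mul (continuous_eval _ _))
    rw [integral_congr_ae (Filter.Eventually.of_forall h1),
      integral_finsetSum _ fun k _ => integrable_finsetSum _ fun i _ => hint i k]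
    refine Finset.sum_congr rfl fun k hk => ?_
    rw [integral_finsetSum _ fun i _ => hint i k, Finset.sum_eq_single k]
    · rw [repro_zero hd, if_pos rfl, inner_self_S, kap, eval_mul, eval_C, PP_eval_one hd, mul_one]
    · intro i _ hi
      rw [repro_zero hd, if_neg hi]
    · intro h
      exact absurd hk h
  -- the square, integrated over `b`
  have hpt : ∀ (r : ℝ) (a : Sph d),
      0 ≤ (∑ α ∈ s, ∑ β ∈ s, N α β * (f α a * f β a)) - 2 * r * (∑ α ∈ s, f α a * f α a) +
        r ^ 2 * ∑ k ∈ J, (nrm d k)⁻¹ := by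
    intro r a
    have h0 : 0 ≤ ∫ b, (∑ α ∈ s, f α a * f α b - r * Θ a b) ^ 2 ∂(sig d) :=
      integral_nonneg fun b => sq_nonneg _
    have h1 : ∀ b, (∑ α ∈ s, f α a * f α b - r * Θ a b) ^ 2 =
        ((∑ α ∈ s, ∑ β ∈ s, (f α a * f β a) * (f α b * f β b)) -
          (∑ α ∈ s, (2 * r * f α a) * (f α b * Θ a b))) + r ^ 2 * (Θ a b * Θ a b) := by
      intro b
      have e1 : (∑ α ∈ s, ∑ β ∈ s, (f α a * f β a) * (f α b * f β b)) =
          (∑ α ∈ s, f α a * f α b) * (∑ α ∈ s, f α a * f α b) := by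
        rw [Finset.sum_mul_sum]
        exact Finset.sum_congr rfl fun i _ => Finset.sum_congr rfl fun k _ => by ring
      have e2 : (∑ α ∈ s, (2 * r * f α a) * (f α b * Θ a b)) =
          2 * r * Θ a b * ∑ α ∈ s, f α a * f α b := by
        rw [Finset.mul_sum]
        exact Finset.sum_congr rfl fun i _ => by ring
      rw [e1, e2]
      ring
    have i1 : ∀ α β, Integrable (fun b => (f α a * f β a) * (f α b * f β b)) (sig d) :=
      fun α β => (integrable_of_continuous ((hfc α).mul (hfc β))).const_mul _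
    have i2 : ∀ α, Integrable (fun b => (2 * r * f α a) * (f α b * Θ a b)) (sig d) :=
      fun α => (integrable_of_continuous ((hfc α).mul (hΘc a))).const_mul _
    have i3 : Integrable (fun b => r ^ 2 * (Θ a b * Θ a b)) (sig d) :=
      (integrable_of_continuous ((hΘc a).mul (hΘc a))).const_mul _
    have i4 : Integrable (fun b => ∑ α ∈ s, ∑ β ∈ s, (f α a * f β a) * (f α b * f β b)) (sig d) :=
      integrable_finsetSum _ fun α _ => integrable_finsetSum _ fun β _ => i1 α β
    have i5 : Integrable (fun b => ∑ α ∈ s, (2 * r * f α a) * (f α b * Θ a b)) (sig d) :=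
      integrable_finsetSum _ fun α _ => i2 α
    have i45 : Integrable (fun b => (∑ α ∈ s, ∑ β ∈ s, (f α a * f β a) * (f α b * f β b)) -
        ∑ α ∈ s, (2 * r * f α a) * (f α b * Θ a b)) (sig d) := i4.sub i5
    rw [integral_congr_ae (Filter.Eventually.of_forall h1), integral_add i45 i3,
      integral_sub i4 i5, integral_const_mul, hΘΘ,
      integral_finsetSum _ fun α _ => integrable_finsetSum _ fun β _ => i1 α β,
      integral_finsetSum _ fun α _ => i2 α] at h0
    have e1 : (∑ α ∈ s, ∫ b, ∑ β ∈ s, (f α a * f β a) * (f α b * f β b) ∂(sig d)) =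
        ∑ α ∈ s, ∑ β ∈ s, N α β * (f α a * f β a) := by
      refine Finset.sum_congr rfl fun α _ => ?_
      rw [integral_finsetSum _ fun β _ => i1 α β]
      refine Finset.sum_congr rfl fun β _ => ?_
      rw [integral_const_mul, hNf, mul_comm]
    have e2 : (∑ α ∈ s, ∫ b, (2 * r * f α a) * (f α b * Θ a b) ∂(sig d)) =
        2 * r * (∑ α ∈ s, f α a * f α a) := by
      rw [Finset.mul_sum]
      refine Finset.sum_congr rfl fun α _ => ?_
      rw [integral_const_mul, hfΘ]
      ring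
    rw [e1, e2] at h0
    exact h0
  -- integrate over `a`
  have hint : ∀ r : ℝ, 0 ≤ (∑ k ∈ J, (nrm d k)⁻¹) * (r * r) + (-2 * ∑ α ∈ s, N α α) * r +
      ∑ α ∈ s, ∑ β ∈ s, N α β ^ 2 := by
    intro r
    have h0 := integral_nonneg (μ := sig d) (f := fun a =>
      (∑ α ∈ s, ∑ β ∈ s, N α β * (f α a * f β a)) - 2 * r * (∑ α ∈ s, f α a * f α a) +
        r ^ 2 * ∑ k ∈ J, (nrm d k)⁻¹) (hpt r)
    have i1 : ∀ α β, Integrable (fun a => N α β * (f α a * f β a)) (sig d) :=
      fun α β => (integrable_of_continuous ((hfc α).mul (hfc β))).const_mul _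
    have i4 : Integrable (fun a => ∑ α ∈ s, ∑ β ∈ s, N α β * (f α a * f β a)) (sig d) :=
      integrable_finsetSum _ fun α _ => integrable_finsetSum _ fun β _ => i1 α β
    have i6 : ∀ α, Integrable (fun a => f α a * f α a) (sig d) :=
      fun α => integrable_of_continuous ((hfc α).mul (hfc α))
    have i5 : Integrable (fun a => 2 * r * (∑ α ∈ s, f α a * f α a)) (sig d) :=
      (integrable_finsetSum _ fun α _ => i6 α).const_mul _
    have i7 : Integrable (fun _ : Sph d => r ^ 2 * ∑ k ∈ J, (nrm d k)⁻¹) (sig d) :=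
      integrable_const _
    have i45 : Integrable (fun a => (∑ α ∈ s, ∑ β ∈ s, N α β * (f α a * f β a)) -
        2 * r * (∑ α ∈ s, f α a * f α a)) (sig d) := i4.sub i5
    rw [integral_add i45 i7, integral_sub i4 i5, integral_const_mul, integral_const,
      integral_finsetSum _ fun α _ => integrable_finsetSum _ fun β _ => i1 α β,
      integral_finsetSum _ fun α _ => i6 α] at h0
    have e1 : (∑ α ∈ s, ∫ a, ∑ β ∈ s, N α β * (f α a * f β a) ∂(sig d)) =
        ∑ α ∈ s, ∑ β ∈ s, N α β ^ 2 := by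
      refine Finset.sum_congr rfl fun α _ => ?_
      rw [integral_finsetSum _ fun β _ => i1 α β]
      refine Finset.sum_congr rfl fun β _ => ?_
      rw [integral_const_mul, hNf, sq]
    have e2 : (∑ α ∈ s, ∫ a, f α a * f α a ∂(sig d)) = ∑ α ∈ s, N α α :=
      Finset.sum_congr rfl fun α _ => hNf α α
    rw [e1, e2] at h0
    have hp : (sig d).real univ = 1 := by simp
    rw [hp, one_smul] at h0
    linarith
  have hdisc := discrim_le_zero hint
  rw [discrim] at hdisc
  have hR : (∑ α ∈ s, ∑ k ∈ J, c k * NN ψ k α α) = ∑ α ∈ s, N α α :=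
    Finset.sum_congr rfl fun α _ => (hN α α).symm
  have hR2 : (∑ α ∈ s, ∑ β ∈ s, (∑ k ∈ J, c k * NN ψ k α β) ^ 2) =
      ∑ α ∈ s, ∑ β ∈ s, N α β ^ 2 :=
    Finset.sum_congr rfl fun α _ => Finset.sum_congr rfl fun β _ => by rw [hN]
  rw [hR, hR2]
  nlinarith [hdisc]

end Pool.Agent.Helper84.KLS
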