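import Pool.Agent.Helper84.KLS.K4
import Pool.Agent.Helper84.KLS.K5
import Pool.Agent.Helper84.KLS.K7
import Pool.Agent.Helper84.KLS.K8

/-!
Block K9: the finite theorem. Index set `C ×ˢ QQ d e` (attach the proofs), `ψ = psi e k (UU x) Q`.
`A = ∑_k c_k ∫ psi²` is the common diagonal entry (`block_diag`), the block of `x` is `A` times the
identity (`block_off`), so with `K = card (QQ d e) = C(d-1,e)`:
`(lam - s) tr(Nc²) ≤ (1 - s) |C| K A²` (from `main_ineq`: `<x,y> - lam ≤ -(lam - s)` off the diagonal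
blocks, `= 1 - lam` on them), `tr(Nc²) ≥ (|C| K A)² / ∑ D_k` (`trace_ineq`), `A > 0` (`diag_pos`).
-/

set_option autoImplicit false

open MeasureTheory Set Metric Polynomial
open scoped RealInnerProductSpace

namespace Pool.Agent.Helper84.KLS

open Pool.Agent.Helper47.KP

private lemma card_QQ {d : ℕ} [NeZero d] (e : ℕ) : (QQ d e).card = (d - 1).choose e := by
  rw [QQ, Finset.card_powersetCard, Finset.card_erase_of_mem (Finset.mem_univ _), Finset.card_univ,
    Fintype.card_fin]

theorem code_bound {d : ℕ} [NeZero d] (hd : 3 ≤ d) (e m : ℕ) (c : ℕ → ℝ)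
    (hc : ∀ k, 0 ≤ c k) (hc0 : c 0 = 0) (hcm : ∀ k, m ≤ k → c k = 0) (lam s : ℝ)
    (hlam : ∀ k, lam * c k ≤ up d e k * c (k - 1) + dn d e k * c (k + 1))
    (hpos : ∃ k, e ≤ k ∧ 0 < c k) (hs : s < lam) (hs1 : s ≤ 1)
    (C : Finset (Sph d)) (hC : ∀ x ∈ C, ∀ y ∈ C, x ≠ y → ⟪(x : EE d), (y : EE d)⟫ ≤ s) :
    (C.card : ℝ) * (d - 1).choose e * (lam - s) ≤ (1 - s) * ∑ k ∈ Finset.range m, (nrm d k)⁻¹ := by
  classical
  have hD0 : 0 ≤ ∑ k ∈ Finset.range m, (nrm d k)⁻¹ :=
    Finset.sum_nonneg (fun k _ => inv_nonneg.mpr (nrm_pos hd k).le)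
  set ψ : (Sph d × {Q : Finset (Fin d) // Q ∈ QQ d e}) → ℕ → Sph d → ℝ :=
    fun α k a => psi e k (UU α.1) α.2 a with hψ
  have hS : Sys d e (fun α : Sph d × {Q : Finset (Fin d) // Q ∈ QQ d e} => α.1) ψ := sys_psi hd e
  set I : Finset (Sph d × {Q : Finset (Fin d) // Q ∈ QQ d e}) := C ×ˢ (QQ d e).attach with hI
  set Nc : (Sph d × {Q : Finset (Fin d) // Q ∈ QQ d e}) →
      (Sph d × {Q : Finset (Fin d) // Q ∈ QQ d e}) → ℝ :=
    fun α β => ∑ k ∈ Finset.range m, c k * NN ψ k α β with hNc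
  have hmain := main_ineq hd hS I c m hc hc0 hcm lam hlam
  have htr := trace_ineq hd hS I c (Finset.range m) hc
  have hcardI : (I.card : ℝ) = C.card * (d - 1).choose e := by
    rw [hI, Finset.card_product, Finset.card_attach, card_QQ]
    push_cast
    ring
  rcases I.eq_empty_or_nonempty with hIe | ⟨α0, hα0⟩
  · have h0 : (C.card : ℝ) * (d - 1).choose e = 0 := by rw [← hcardI, hIe]; simp
    rw [h0, zero_mul]
    exact mul_nonneg (by linarith) hD0
  · -- the diagonal entries
    have hdiag : ∀ α, Nc α α = Nc α0 α0 := by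
      intro α
      refine Finset.sum_congr rfl (fun k _ => ?_)
      congr 1
      exact block_diag e k (UU α.1) (UU α0.1) α.2.2 α0.2.2
    have hoff : ∀ (x : Sph d) (Q Q' : {Q : Finset (Fin d) // Q ∈ QQ d e}), Q ≠ Q' →
        Nc (x, Q) (x, Q') = 0 := by
      intro x Q Q' hne
      refine Finset.sum_eq_zero (fun k _ => ?_)
      have : NN ψ k (x, Q) (x, Q') = 0 :=
        block_off e k (UU x) Q.2 Q'.2 (fun h => hne (Subtype.ext h))
      rw [this, mul_zero]
    set A := Nc α0 α0 with hA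
    have hApos : 0 < A := by
      obtain ⟨k0, hk0, hck0⟩ := hpos
      have hk0m : k0 ∈ Finset.range m := by
        rw [Finset.mem_range]
        by_contra h
        exact hck0.ne' (hcm k0 (not_lt.mp h))
      refine Finset.sum_pos' (fun k _ => mul_nonneg (hc k) ?_) ⟨k0, hk0m, mul_pos hck0 ?_⟩
      · exact integral_nonneg (fun a => mul_self_nonneg _)
      · exact diag_pos hd hk0 (UU α0.1) α0.2.2
    -- the sum of the squares over the diagonal blocks
    have hblock : ∑ α ∈ I, ∑ β ∈ I, (if α.1 = β.1 then Nc α β ^ 2 else 0) = I.card * A ^ 2 := by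
      rw [← nsmul_eq_mul, ← Finset.sum_const]
      refine Finset.sum_congr rfl (fun α hα => ?_)
      rw [Finset.sum_eq_single α]
      · rw [if_pos rfl, hdiag]
      · intro β _ hβ
        split_ifs with h
        · have h1 : Nc α β = 0 := by
            obtain ⟨x, Q⟩ := α
            obtain ⟨y, Q'⟩ := β
            simp only at h
            subst h
            exact hoff x Q Q' (fun h' => hβ (by rw [h']))
          rw [h1]; ring
        · rfl
      · intro h; exact absurd hα h
    have h1 : ∑ α ∈ I, ∑ β ∈ I, (⟪(α.1 : EE d), (β.1 : EE d)⟫ - lam) * Nc α β ^ 2 ≤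
        ∑ α ∈ I, ∑ β ∈ I, ((s - lam) * Nc α β ^ 2 +
          (1 - s) * (if α.1 = β.1 then Nc α β ^ 2 else 0)) := by
      refine Finset.sum_le_sum (fun α hα => Finset.sum_le_sum (fun β hβ => ?_))
      have hsq : 0 ≤ Nc α β ^ 2 := sq_nonneg _
      split_ifs with h
      · have : ⟪(α.1 : EE d), (β.1 : EE d)⟫ = 1 := by
          rw [h, real_inner_self_eq_norm_sq]
          have : ‖(β.1 : EE d)‖ = 1 := by simpa using β.1.2
          rw [this]; norm_num
        rw [this]
        exact le_of_eq (by ring)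
      · have hle : ⟪(α.1 : EE d), (β.1 : EE d)⟫ ≤ s := by
          refine hC α.1 ?_ β.1 ?_ h
          · exact (Finset.mem_product.mp hα).1
          · exact (Finset.mem_product.mp hβ).1
        rw [mul_zero, add_zero]
        exact mul_le_mul_of_nonneg_right (by linarith) hsq
    have h2 : ∑ α ∈ I, ∑ β ∈ I, ((s - lam) * Nc α β ^ 2 +
          (1 - s) * (if α.1 = β.1 then Nc α β ^ 2 else 0)) =
        (s - lam) * (∑ α ∈ I, ∑ β ∈ I, Nc α β ^ 2) + (1 - s) * (I.card * A ^ 2) := by
      rw [← hblock]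
      simp only [Finset.sum_add_distrib, Finset.mul_sum]
    have h3 : (lam - s) * (∑ α ∈ I, ∑ β ∈ I, Nc α β ^ 2) ≤ (1 - s) * (I.card * A ^ 2) := by
      have := hmain.trans (h1.trans_eq h2)
      nlinarith [this]
    have h4 : ∑ α ∈ I, ∑ k ∈ Finset.range m, c k * NN ψ k α α = I.card * A := by
      rw [← nsmul_eq_mul, ← Finset.sum_const]
      exact Finset.sum_congr rfl (fun α _ => hdiag α)
    rw [h4] at htr
    have hcard : (0 : ℝ) < I.card := by exact_mod_cast Finset.card_pos.mpr ⟨α0, hα0⟩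
    set D := ∑ k ∈ Finset.range m, (nrm d k)⁻¹ with hDdef
    set T := ∑ α ∈ I, ∑ β ∈ I, Nc α β ^ 2 with hT
    have htr' : (I.card * A) ^ 2 ≤ D * T := htr
    rw [← hcardI]
    have h5 : (lam - s) * (I.card * A) ^ 2 ≤ D * ((1 - s) * (I.card * A ^ 2)) := by
      calc (lam - s) * (I.card * A) ^ 2 ≤ (lam - s) * (D * T) :=
            mul_le_mul_of_nonneg_left htr' (by linarith)
        _ = D * ((lam - s) * T) := by ring
        _ ≤ D * ((1 - s) * (I.card * A ^ 2)) := mul_le_mul_of_nonneg_left h3 hD0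
    have h6 : (0 : ℝ) < I.card * A ^ 2 := by positivity
    have h7 : (I.card * (lam - s)) * (I.card * A ^ 2) ≤ ((1 - s) * D) * (I.card * A ^ 2) := by
      nlinarith [h5]
    exact le_of_mul_le_mul_right h7 h6

end Pool.Agent.Helper84.KLS
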